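import Pool.Agent.H90.LS.KL1c

/-!
Module KL1, part 4: the kernel `KK`.
-/

set_option autoImplicit false

open MeasureTheory Set
open scoped ENNReal NNReal

namespace Pool.Agent.H90.LS

open Pool.Agent.H83.LS

lemma W_sum_le {ι : Type*} (S : Finset ι) (f : ι → ℝ × ℝ → ℂ) (hf : ∀ i ∈ S, TC (f i))
    (b : ℝ × ℝ → ℂ) (hb : ∀ ξ, b ξ = ∑ i ∈ S, f i ξ) (T : ℝ) (X : ℝ × ℝ) :
    ‖W T b X‖ₑ ≤ ∑ i ∈ S, ‖W T (f i) X‖ₑ := by
  have h : W T b X = ∑ i ∈ S, W T (f i) X := by
    unfold W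
    rw [← integral_finsetSum]
    · congr 1
      funext ξ
      rw [hb ξ, Finset.mul_sum]
    · intro i hi
      apply (hf i hi).integrable.bdd_mul (c := 1)
      · exact (continuous_e.comp (by fun_prop)).aestronglyMeasurable
      · exact Filter.Eventually.of_forall (fun ζ => (norm_e _).le)
  rw [h]
  exact enorm_sum_le _ _

lemma W_meas {b : ℝ × ℝ → ℂ} (hb : TC b) (T : ℝ) : Continuous (W T b) := by
  have h : W T b = Fi (fun ξ => e (T * Real.sqrt (ξ.1 ^ 2 + ξ.2 ^ 2)) * b ξ) := by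
    funext x
    unfold W Fi
    congr 1
    funext ξ
    rw [e_add]
    ring
  rw [h]
  apply continuous_Fi
  apply hb.integrable.bdd_mul (c := 1)
  · exact (continuous_e.comp (by fun_prop)).aestronglyMeasurable
  · exact Filter.Eventually.of_forall (fun ζ => (norm_e _).le)

lemma KK_eq {lam Lam t : ℝ} (hlam : 0 < lam) (hLam : 0 < Lam) (x : ℝ × ℝ) :
    KK t lam Lam x =
      ((lam * lam : ℝ) : ℂ) * W (t * lam) (bP (Lam / lam) fun _ => 1) (lam * x.1, lam * x.2) := by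
  have hα : 0 < Lam / lam := by positivity
  have hTC := bP_TC hα (contDiff_const : ContDiff ℝ (⊤ : ℕ∞) fun _ : ℝ × ℝ => (1 : ℝ))
  -- the integrand as a continuous function
  set F : ℝ × ℝ → ℂ := fun ξ => e (x.1 * ξ.1 + x.2 * ξ.2 + t * Real.sqrt (ξ.1 ^ 2 + ξ.2 ^ 2)) *
    ((chi (Real.sqrt (ξ.1 ^ 2 + ξ.2 ^ 2) / lam) * chis (ξ.1 / Lam) : ℝ) : ℂ) with hF
  have hFc : Continuous F := by
    have h1 : Continuous chi := chi_contDiff.continuous
    have h2 : Continuous chis := chis_contDiff.continuous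
    refine (continuous_e.comp (by fun_prop)).mul (Complex.continuous_ofReal.comp ?_)
    exact (h1.comp (by fun_prop)).mul (h2.comp (by fun_prop))
  have h := integral_diag lam lam hlam hlam F hFc
  have h2 : W (t * lam) (bP (Lam / lam) fun _ => 1) (lam * x.1, lam * x.2) =
      ∫ ξ : ℝ × ℝ, F (lam * ξ.1, lam * ξ.2) := by
    unfold W
    congr 1
    funext ξ
    simp only [hF]
    unfold bP
    have h3 : Real.sqrt ((lam * ξ.1) ^ 2 + (lam * ξ.2) ^ 2) =
        lam * Real.sqrt (ξ.1 ^ 2 + ξ.2 ^ 2) := by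
      rw [show (lam * ξ.1) ^ 2 + (lam * ξ.2) ^ 2 = lam ^ 2 * (ξ.1 ^ 2 + ξ.2 ^ 2) by ring,
        Real.sqrt_mul (by positivity), Real.sqrt_sq hlam.le]
    rw [h3, mul_div_cancel_left₀ _ hlam.ne', mul_one]
    congr 1
    · congr 1
      ring
    · congr 3
      field_simp
  rw [h2, h, ← mul_assoc, ← Complex.ofReal_mul, mul_inv_cancel₀ (by positivity),
    Complex.ofReal_one, one_mul]
  rfl

/-- the integral of the kernel in terms of the sectors -/
lemma KK_le {lam Lam t R : ℝ} (hlam : 0 < lam) (hLam : 0 < Lam) {ι : Type*} (S : Finset ι)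
    (P : ι → ℝ × ℝ → ℝ) (hP : ∀ i ∈ S, ContDiff ℝ (⊤ : ℕ∞) (P i))
    (hsum : ∀ ξ, bP (Lam / lam) (fun _ => 1) ξ = ∑ i ∈ S, bP (Lam / lam) (P i) ξ) :
    ∫⁻ x in {x : ℝ × ℝ | R ≤ |x.1|}, ‖KK t lam Lam x‖ₑ ≤
      ∑ i ∈ S, ∫⁻ X in {X : ℝ × ℝ | lam * R ≤ |X.1|}, ‖W (t * lam) (bP (Lam / lam) (P i)) X‖ₑ := by
  have hα : 0 < Lam / lam := by positivity
  have hTC := bP_TC hα (contDiff_const : ContDiff ℝ (⊤ : ℕ∞) fun _ : ℝ × ℝ => (1 : ℝ))
  set B := {X : ℝ × ℝ | lam * R ≤ |X.1|} with hB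
  have hBm : MeasurableSet B := meas_ge _
  set w := W (t * lam) (bP (Lam / lam) fun _ => 1) with hw
  have hwc : Continuous w := W_meas hTC _
  have hFm : Measurable (B.indicator fun y => ‖w y‖ₑ) := hwc.measurable.enorm.indicator hBm
  calc ∫⁻ x in {x : ℝ × ℝ | R ≤ |x.1|}, ‖KK t lam Lam x‖ₑ = ∫⁻ X in B, ‖w X‖ₑ := by
        rw [← lintegral_indicator (meas_ge _), ← lintegral_indicator hBm,
          ← lintegral_diag lam lam hlam hlam _ hFm]
        refine lintegral_congr fun x => ?_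
        by_cases hx : x ∈ {x : ℝ × ℝ | R ≤ |x.1|}
        · have hx' : (lam * x.1, lam * x.2) ∈ B := by
            show lam * R ≤ |lam * x.1|
            rw [abs_mul, abs_of_pos hlam]
            exact mul_le_mul_of_nonneg_left hx hlam.le
          rw [indicator_of_mem hx, indicator_of_mem hx', KK_eq hlam hLam, enorm_mul]
          congr 1
          rw [← ofReal_norm, Complex.norm_real, Real.norm_eq_abs, abs_of_pos (by positivity)]
        · have hx' : (lam * x.1, lam * x.2) ∉ B := by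
            intro h
            apply hx
            have h' : lam * R ≤ |lam * x.1| := h
            rw [abs_mul, abs_of_pos hlam] at h'
            exact le_of_mul_le_mul_left h' hlam
          rw [indicator_of_notMem hx, indicator_of_notMem hx', mul_zero]
    _ ≤ ∫⁻ X in B, ∑ i ∈ S, ‖W (t * lam) (bP (Lam / lam) (P i)) X‖ₑ :=
        lintegral_mono fun X => W_sum_le S _ (fun i hi => bP_TC hα (hP i hi)) _ hsum _ X
    _ = _ := by
        apply lintegral_finsetSum'
        intro i hi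
        exact (W_meas (bP_TC hα (hP i hi)) _).measurable.enorm.aemeasurable

/-- partition for small `α` -/
noncomputable def PA (σ : ℝ) (ξ : ℝ × ℝ) : ℝ := Real.smoothTransition (4 * (σ * ξ.2))

lemma PA_smooth (σ : ℝ) : ContDiff ℝ (⊤ : ℕ∞) (PA σ) := by
  unfold PA
  exact Real.smoothTransition.contDiff.comp (by fun_prop)

/-- partition for large `α` -/
noncomputable def PB (σ : ℝ) (ξ : ℝ × ℝ) : ℝ :=
  Real.smoothTransition (5 * (σ * ξ.2 - 3 / 10 * ξ.1))

lemma PB_smooth (σ : ℝ) : ContDiff ℝ (⊤ : ℕ∞) (PB σ) := by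
  unfold PB
  exact Real.smoothTransition.contDiff.comp (by fun_prop)

/-- the middle piece -/
noncomputable def P0 (ξ : ℝ × ℝ) : ℝ := 1 - PB 1 ξ - PB (-1) ξ

lemma P0_smooth : ContDiff ℝ (⊤ : ℕ∞) P0 := by
  unfold P0
  exact (contDiff_const.sub (PB_smooth 1)).sub (PB_smooth (-1))

lemma st_pos {x : ℝ} (h : Real.smoothTransition x ≠ 0) : 0 < x := by
  by_contra h1
  exact h (Real.smoothTransition.zero_of_nonpos (not_lt.1 h1))

lemma sumA {α : ℝ} (hα : 0 < α) (hα2 : α ≤ 1 / 32) (ξ : ℝ × ℝ) :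
    bP α (fun _ => 1) ξ = ∑ i ∈ (Finset.univ : Finset (Fin 2)),
      bP α (![PA 1, PA (-1)] i) ξ := by
  rw [Fin.sum_univ_two]
  simp only [Matrix.cons_val_zero, Matrix.cons_val_one]
  by_cases h : bP α (fun _ => 1) ξ = 0
  · have h2 : chi (Real.sqrt (ξ.1 ^ 2 + ξ.2 ^ 2)) * chis (ξ.1 / α) = 0 := by
      unfold bP at h
      rw [mul_one, Complex.ofReal_eq_zero] at h
      exact h
    unfold bP
    rw [h2]
    simp
  · obtain ⟨⟨h1, -⟩, ⟨h2, h3⟩, -⟩ := bP_supp hα h
    have h4 : ξ.1 ^ 2 ≤ 1 / 64 := by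
      have : ξ.1 ≤ 1 / 8 := by linarith
      nlinarith
    have h5 : (1 / 4) ^ 2 ≤ ξ.2 ^ 2 := by linarith
    have h6 : PA 1 ξ + PA (-1) ξ = 1 := by
      unfold PA
      rcases le_or_gt 0 ξ.2 with h7 | h7
      · have h8 : 1 / 4 ≤ ξ.2 := abs_le_of_sq_le_sq' h5 h7 |>.2
        rw [Real.smoothTransition.one_of_one_le (by linarith),
          Real.smoothTransition.zero_of_nonpos (by linarith), add_zero]
      · have h8 : 1 / 4 ≤ -ξ.2 :=
          abs_le_of_sq_le_sq' (by rw [neg_sq]; exact h5) (by linarith) |>.2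
        rw [Real.smoothTransition.zero_of_nonpos (by linarith),
          Real.smoothTransition.one_of_one_le (by linarith), zero_add]
    unfold bP
    rw [← Complex.ofReal_add, ← mul_add, h6]

lemma sumB {α : ℝ} (ξ : ℝ × ℝ) :
    bP α (fun _ => 1) ξ = ∑ i ∈ (Finset.univ : Finset (Fin 3)),
      bP α (![PB 1, PB (-1), P0] i) ξ := by
  rw [Fin.sum_univ_three]
  simp only [Matrix.cons_val_zero, Matrix.cons_val_one, Matrix.cons_val]
  unfold bP P0
  rw [← Complex.ofReal_add, ← Complex.ofReal_add]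
  congr 1
  ring

lemma TSA {α σ : ℝ} (hσ : σ = 1 ∨ σ = -1) (hα : 0 < α) (hα2 : α ≤ 1 / 32) :
    TS (tau (σ * (Real.pi / 2)) (10 * α)) (bP α (PA σ)) := by
  refine ⟨bP_TC hα (PA_smooth σ), fun ξ hξ => ?_⟩
  obtain ⟨⟨h1, h1'⟩, ⟨h2, h3⟩, h4⟩ := bP_supp hα hξ
  have h5 : 0 < σ * ξ.2 := by
    have := st_pos h4
    linarith
  have hc : Real.cos (σ * (Real.pi / 2)) = 0 := by
    rcases hσ with h | h <;> rw [h] <;> simp
  have hs : Real.sin (σ * (Real.pi / 2)) = σ := by
    rcases hσ with h | h <;> rw [h] <;> simp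
  have h6 : ξ.1 ^ 2 ≤ 1 / 64 := by
    have : ξ.1 ≤ 1 / 8 := by linarith
    nlinarith
  have h7 : 0 ≤ ξ.1 := by linarith
  have h8 : 45 / 100 ≤ σ * ξ.2 := by
    refine abs_le_of_sq_le_sq' ?_ h5.le |>.2
    rcases hσ with h | h <;> rw [h] <;> nlinarith
  refine ⟨h1, h1', ?_⟩
  rw [hc, hs, mul_zero, add_zero, mul_zero, zero_add]
  have h9 : |-(ξ.1 * σ)| = ξ.1 := by
    rcases hσ with h | h <;> rw [h]
    · rw [mul_one, abs_neg, abs_of_nonneg h7]
    · rw [mul_neg, mul_one, neg_neg, abs_of_nonneg h7]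
  rw [h9, mul_comm ξ.2 σ]
  nlinarith

lemma TSB {α σ : ℝ} (hσ : σ = 1 ∨ σ = -1) (hα : 0 < α) :
    TS (tau (σ * (Real.pi / 3)) 1) (bP α (PB σ)) := by
  refine ⟨bP_TC hα (PB_smooth σ), fun ξ hξ => ?_⟩
  obtain ⟨⟨h1, h1'⟩, ⟨h2, h3⟩, h4⟩ := bP_supp hα hξ
  have h5 : 3 / 10 * ξ.1 < σ * ξ.2 := by
    have := st_pos h4
    linarith
  have hc : Real.cos (σ * (Real.pi / 3)) = 1 / 2 := by
    rcases hσ with h | h <;> rw [h]
    · rw [one_mul, Real.cos_pi_div_three]
    · rw [neg_one_mul, Real.cos_neg, Real.cos_pi_div_three]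
  have hs : Real.sin (σ * (Real.pi / 3)) = σ * (Real.sqrt 3 / 2) := by
    rcases hσ with h | h <;> rw [h]
    · rw [one_mul, one_mul, Real.sin_pi_div_three]
    · rw [neg_one_mul, neg_one_mul, Real.sin_neg, Real.sin_pi_div_three]
  have h7 : 0 < ξ.1 := by linarith
  have h3a : Real.sqrt 3 < 1.75 := by
    rw [Real.sqrt_lt' (by norm_num)]
    norm_num
  have h3b : 1.7 < Real.sqrt 3 := by
    rw [Real.lt_sqrt (by norm_num)]
    norm_num
  have hσ2 : σ * σ = 1 := by
    rcases hσ with h | h <;> rw [h] <;> norm_num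
  refine ⟨h1, h1', ?_⟩
  rw [hc, hs, one_mul]
  -- replace `ξ.2` by `u = σ ξ.2`
  obtain ⟨u, hu⟩ : ∃ u, u = σ * ξ.2 := ⟨_, rfl⟩
  have hu2 : ξ.2 = σ * u := by
    rw [hu, ← mul_assoc, hσ2, one_mul]
  rw [← hu] at h5
  rw [hu2]
  have h9 : |-(ξ.1 * (σ * (Real.sqrt 3 / 2))) + σ * u * (1 / 2)| =
      |-(ξ.1 * (Real.sqrt 3 / 2)) + u * (1 / 2)| := by
    have : -(ξ.1 * (σ * (Real.sqrt 3 / 2))) + σ * u * (1 / 2) =
      σ * (-(ξ.1 * (Real.sqrt 3 / 2)) + u * (1 / 2)) := by ring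
    rw [this, abs_mul]
    have : |σ| = 1 := by
      rcases hσ with h | h <;> rw [h] <;> simp
    rw [this, one_mul]
  have h10 : σ * u * (σ * (Real.sqrt 3 / 2)) = u * (Real.sqrt 3 / 2) := by
    linear_combination (u * (Real.sqrt 3 / 2)) * hσ2
  rw [h9, h10, abs_le]
  have hu0 : 0 < u := by linarith
  constructor
  · have k1 : Real.sqrt 3 * ξ.1 - ξ.1 ≤ Real.sqrt 3 * u + u := by
      have k2 : (Real.sqrt 3 - 1) * ξ.1 ≤ 0.75 * ξ.1 :=
        mul_le_mul_of_nonneg_right (by linarith) h7.le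
      have k3 : 2.7 * u ≤ (Real.sqrt 3 + 1) * u :=
        mul_le_mul_of_nonneg_right (by linarith) hu0.le
      linarith
    linarith
  · have k1 : 1.7 * u ≤ Real.sqrt 3 * u := mul_le_mul_of_nonneg_right h3b.le hu0.le
    have k2 : 0 ≤ Real.sqrt 3 * ξ.1 := by positivity
    linarith

lemma TS0 {α : ℝ} (hα : 0 < α) : TS (tau 0 1) (bP α P0) := by
  refine ⟨bP_TC hα P0_smooth, fun ξ hξ => ?_⟩
  obtain ⟨⟨h1, h1'⟩, ⟨h2, h3⟩, h4⟩ := bP_supp hα hξ
  have h7 : 0 < ξ.1 := by linarith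
  refine ⟨h1, h1', ?_⟩
  rw [Real.sin_zero, Real.cos_zero, mul_zero, neg_zero, zero_add, mul_one, mul_one, mul_zero,
    add_zero, one_mul]
  by_contra hne
  push Not at hne
  apply h4
  unfold P0 PB
  rcases le_or_gt 0 ξ.2 with h | h
  · rw [abs_of_nonneg h] at hne
    have h5 : (1 / 3) ^ 2 ≤ ξ.2 ^ 2 := by nlinarith
    have h6 : 1 / 3 ≤ ξ.2 := abs_le_of_sq_le_sq' h5 h |>.2
    rw [Real.smoothTransition.one_of_one_le (by linarith),
      Real.smoothTransition.zero_of_nonpos (by linarith)]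
    norm_num
  · rw [abs_of_neg h] at hne
    have h5 : (1 / 3) ^ 2 ≤ (-ξ.2) ^ 2 := by nlinarith
    have h6 : 1 / 3 ≤ -ξ.2 := abs_le_of_sq_le_sq' h5 (by linarith) |>.2
    rw [Real.smoothTransition.zero_of_nonpos (by linarith),
      Real.smoothTransition.one_of_one_le (by linarith)]
    norm_num

lemma abs_dh_le (a σ : ℝ) : |dh a σ| ≤ |σ| := by
  unfold dh
  rw [abs_div]
  apply div_le_self (abs_nonneg _)
  rw [abs_of_nonneg (Real.sqrt_nonneg _), Real.one_le_sqrt]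
  nlinarith [mul_self_nonneg (a * σ)]

lemma gr_one_le (σ : ℝ) : ‖gr 1 σ‖ ≤ 1 := by
  unfold gr hh dh
  rw [one_pow, one_mul]
  set q := Real.sqrt (1 + σ ^ 2) with hq
  have hq1 : 1 ≤ q := by
    rw [hq, Real.one_le_sqrt]
    nlinarith [sq_nonneg σ]
  have hq2 : q ^ 2 = 1 + σ ^ 2 := Real.sq_sqrt (by positivity)
  have hq0 : 0 < q := by linarith
  rw [Prod.norm_def, max_le_iff, Real.norm_eq_abs, Real.norm_eq_abs]
  constructor
  · have h1 : σ ^ 2 / (q + 1) - σ * (σ / q) = 1 / q - 1 := by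
      field_simp
      linear_combination (1 : ℝ) * hq2
    simp only
    rw [h1, abs_le]
    have h2 : 0 < 1 / q := by positivity
    have h3 : 1 / q ≤ 1 := by
      rw [div_le_one hq0]
      exact hq1
    constructor <;> linarith
  · simp only
    rw [abs_div, abs_of_pos hq0, div_le_one hq0]
    exact abs_le_of_sq_le_sq (by nlinarith) hq0.le

/-- geometry of small `α` -/
lemma geoA {a T lam D σ' : ℝ} (hσ' : σ' = 1 ∨ σ' = -1) (ha : 0 < a) (hT : 0 ≤ T)
    (hlam : 1 ≤ lam) (hTl : T ≤ 2 * lam) (hD : 100 * a ≤ D) (σ : ℝ) (z : ℝ × ℝ)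
    (hσ : |σ| ≤ 3) (hz : z ∈ Bset (σ' * (Real.pi / 2)) a T (lam * D)) :
    a * (lam * D) / 8 ≤ ‖z + (a ^ 2 * T) • gr a σ‖ := by
  have hc : Real.cos (σ' * (Real.pi / 2)) = 0 := by
    rcases hσ' with h | h <;> rw [h] <;> simp
  have hs : Real.sin (σ' * (Real.pi / 2)) = σ' := by
    rcases hσ' with h | h <;> rw [h] <;> simp
  have hz' : 3 * (lam * D) / 4 ≤ |(z.1 - T) * Real.cos (σ' * (Real.pi / 2)) -
    (z.2 / a) * Real.sin (σ' * (Real.pi / 2))| := hz
  rw [hc, hs, mul_zero, zero_sub, abs_neg, abs_mul, show |σ'| = 1 by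
    rcases hσ' with h | h <;> rw [h] <;> simp, mul_one, abs_div, abs_of_pos ha,
    le_div_iff₀ ha] at hz'
  have h1 : |z.2 + a ^ 2 * T * dh a σ| ≤ ‖z + (a ^ 2 * T) • gr a σ‖ := by
    have := norm_snd_le (z + (a ^ 2 * T) • gr a σ)
    rw [Real.norm_eq_abs] at this
    exact this
  have h2 : |z.2| ≤ |z.2 + a ^ 2 * T * dh a σ| + |a ^ 2 * T * dh a σ| := by
    have := abs_sub_abs_le_abs_sub z.2 (-(a ^ 2 * T * dh a σ))
    rw [abs_neg, sub_neg_eq_add] at this
    linarith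
  have h3 : |a ^ 2 * T * dh a σ| ≤ a ^ 2 * T * 3 := by
    rw [abs_mul, abs_of_nonneg (by positivity)]
    exact mul_le_mul_of_nonneg_left ((abs_dh_le a σ).trans hσ) (by positivity)
  have h4 : a ^ 2 * T ≤ a ^ 2 * (2 * lam) := mul_le_mul_of_nonneg_left hTl (by positivity)
  have h5 : a * lam * (100 * a) ≤ a * lam * D := mul_le_mul_of_nonneg_left hD (by positivity)
  have h6 : 0 < a ^ 2 * lam := by positivity
  nlinarith

/-- geometry of large `α` -/
lemma geoB {T lam D θ : ℝ} (hT : 0 ≤ T)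
    (hlam : 1 ≤ lam) (hTl : T ≤ 2 * lam) (hD : 31 ≤ D) (σ : ℝ) (z : ℝ × ℝ)
    (hz : z ∈ Bset θ 1 T (lam * D)) :
    1 * (lam * D) / 8 ≤ ‖z + ((1 : ℝ) ^ 2 * T) • gr 1 σ‖ := by
  have hz' : 3 * (lam * D) / 4 ≤ |(z.1 - T) * Real.cos θ - (z.2 / 1) * Real.sin θ| := hz
  have hc := Real.abs_cos_le_one θ
  have hs := Real.abs_sin_le_one θ
  have h1 : |(z.1 - T) * Real.cos θ - (z.2 / 1) * Real.sin θ| ≤ |z.1 - T| + |z.2| := by
    refine (abs_sub _ _).trans ?_
    rw [abs_mul, abs_mul, div_one]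
    have k1 : |z.1 - T| * |Real.cos θ| ≤ |z.1 - T| * 1 :=
      mul_le_mul_of_nonneg_left hc (abs_nonneg _)
    have k2 : |z.2| * |Real.sin θ| ≤ |z.2| * 1 := mul_le_mul_of_nonneg_left hs (abs_nonneg _)
    linarith
  have h2 : |z.1 - T| ≤ |z.1| + T := by
    refine (abs_sub _ _).trans ?_
    rw [abs_of_nonneg hT]
  have h3 : |z.1| ≤ ‖z‖ := norm_fst_le z
  have h4 : |z.2| ≤ ‖z‖ := norm_snd_le z
  have h5 : ‖z‖ ≤ ‖z + ((1 : ℝ) ^ 2 * T) • gr 1 σ‖ + T := by
    have k1 : z = (z + ((1 : ℝ) ^ 2 * T) • gr 1 σ) - ((1 : ℝ) ^ 2 * T) • gr 1 σ := by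
      rw [add_sub_cancel_right]
    have k2 : ‖((1 : ℝ) ^ 2 * T) • gr 1 σ‖ ≤ T := by
      rw [norm_smul, Real.norm_eq_abs, one_pow, one_mul, abs_of_nonneg hT]
      have := mul_le_mul_of_nonneg_left (gr_one_le σ) hT
      linarith
    calc ‖z‖ = ‖(z + ((1 : ℝ) ^ 2 * T) • gr 1 σ) - ((1 : ℝ) ^ 2 * T) • gr 1 σ‖ := by
          rw [← k1]
      _ ≤ _ := (norm_sub_le _ _).trans (by linarith)
  have h6 : lam * 31 ≤ lam * D := mul_le_mul_of_nonneg_left hD (by linarith)
  have h7 : 3 * (lam * D) / 4 ≤ |z.1| + T + |z.2| :=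
    hz'.trans (h1.trans (add_le_add h2 le_rfl))
  have h9 : 1 * (lam * D) / 8 = lam * D / 8 := by ring
  rw [h9]
  clear hz' h1 h2 hz hc hs
  generalize ‖z + ((1 : ℝ) ^ 2 * T) • gr 1 σ‖ = n at h5 ⊢
  generalize ‖z‖ = nz at h3 h4 h5
  generalize |z.1| = z1 at h3 h7
  generalize |z.2| = z2 at h4 h7
  generalize lam * D = ρ at h7 h6 ⊢
  linarith

theorem kl1 (lor' : T_LOR) (conv : T_CONV) (cut : T_CUT) (tcu : T_TCU) (kb : T_KB)
    (sec1 : T_SEC1) : T_KL1 := by
  constructor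
  · obtain ⟨CA, hCA⟩ := sector_L1 lor' conv cut tcu kb sec1 (PA_smooth 1)
    obtain ⟨CA', hCA'⟩ := sector_L1 lor' conv cut tcu kb sec1 (PA_smooth (-1))
    obtain ⟨CB, hCB⟩ := sector_L1 lor' conv cut tcu kb sec1 (PB_smooth 1)
    obtain ⟨CB', hCB'⟩ := sector_L1 lor' conv cut tcu kb sec1 (PB_smooth (-1))
    obtain ⟨C0, hC0⟩ := sector_L1 lor' conv cut tcu kb sec1 P0_smooth
    refine ⟨CA + CA' + CB + CB' + C0, ?_⟩
    intro lam Lam t hlam hLam hLl ht ht2
    have hlam0 : 0 < lam := by linarith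
    set α := Lam / lam with hα
    have hα0 : 0 < α := by positivity
    have hα4 : α ≤ 4 := by
      rw [hα, div_le_iff₀ hlam0]
      exact hLl
    have hT0 : 0 ≤ t * lam := by positivity
    have hTl : t * lam ≤ 2 * lam := mul_le_mul_of_nonneg_right ht2 hlam0.le
    have huniv : {x : ℝ × ℝ | (0 : ℝ) ≤ |x.1|} = univ := by
      ext x
      simp
    have huniv' : {x : ℝ × ℝ | lam * (0 : ℝ) ≤ |x.1|} = univ := by
      ext x
      simp
    rcases le_or_gt α (1 / 32) with h | h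
    · have k := KK_le (t := t) (R := 0) hlam0 hLam (Finset.univ : Finset (Fin 2))
        ![PA 1, PA (-1)] (by
          intro i _
          fin_cases i
          · exact PA_smooth 1
          · exact PA_smooth (-1)) (sumA hα0 h)
      rw [huniv, huniv', Measure.restrict_univ, Fin.sum_univ_two] at k
      simp only [Matrix.cons_val_zero, Matrix.cons_val_one] at k
      have k1 := hCA α _ (10 * α) (t * lam) lam hα0 hα4 (by positivity) (by linarith) hT0 hlam
        hTl (TSA (Or.inl rfl) hα0 h)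
      have k2 := hCA' α _ (10 * α) (t * lam) lam hα0 hα4 (by positivity) (by linarith) hT0 hlam
        hTl (TSA (Or.inr rfl) hα0 h)
      refine (k.trans (add_le_add k1 k2)).trans ?_
      rw [← add_mul]
      refine mul_le_mul_left ?_ _
      push_cast
      rw [add_assoc, add_assoc]
      exact le_self_add
    · have k := KK_le (t := t) (R := 0) hlam0 hLam (Finset.univ : Finset (Fin 3))
        ![PB 1, PB (-1), P0] (by
          intro i _
          fin_cases i
          · exact PB_smooth 1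
          · exact PB_smooth (-1)
          · exact P0_smooth) sumB
      rw [huniv, huniv', Measure.restrict_univ, Fin.sum_univ_three] at k
      simp only [Matrix.cons_val_zero, Matrix.cons_val_one, Matrix.cons_val] at k
      have k1 := hCB α _ 1 (t * lam) lam hα0 hα4 one_pos le_rfl hT0 hlam
        hTl (TSB (Or.inl rfl) hα0)
      have k2 := hCB' α _ 1 (t * lam) lam hα0 hα4 one_pos le_rfl hT0 hlam
        hTl (TSB (Or.inr rfl) hα0)
      have k3 := hC0 α _ 1 (t * lam) lam hα0 hα4 one_pos le_rfl hT0 hlam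
        hTl (TS0 hα0)
      refine (k.trans (add_le_add (add_le_add k1 k2) k3)).trans ?_
      rw [← add_mul, ← add_mul]
      refine mul_le_mul_left ?_ _
      push_cast
      rw [show (CA : ℝ≥0∞) + CA' + CB + CB' + C0 = CA + CA' + (CB + CB' + C0) by ring]
      exact le_add_self
  · intro N
    obtain ⟨CA, hCA⟩ := sector_tail lor' conv cut tcu kb sec1 (PA_smooth 1) N
    obtain ⟨CA', hCA'⟩ := sector_tail lor' conv cut tcu kb sec1 (PA_smooth (-1)) N
    obtain ⟨CB, hCB⟩ := sector_tail lor' conv cut tcu kb sec1 (PB_smooth 1) N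
    obtain ⟨CB', hCB'⟩ := sector_tail lor' conv cut tcu kb sec1 (PB_smooth (-1)) N
    obtain ⟨C0, hC0⟩ := sector_tail lor' conv cut tcu kb sec1 P0_smooth N
    refine ⟨CA + CA' + CB + CB' + C0, ?_⟩
    intro lam Lam t D hlam hLam hLl ht ht2 hD1 hD2
    have hlam0 : 0 < lam := by linarith
    set α := Lam / lam with hα
    have hα0 : 0 < α := by positivity
    have hα4 : α ≤ 4 := by
      rw [hα, div_le_iff₀ hlam0]
      exact hLl
    have hT0 : 0 ≤ t * lam := by positivity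
    have hTl : t * lam ≤ 2 * lam := mul_le_mul_of_nonneg_right ht2 hlam0.le
    have hD3 : 1000 * α ≤ D := by
      rw [hα, ← mul_div_assoc]
      exact hD1
    have hD0 : 0 < D := by
      have : 0 < 1000 * α := by positivity
      linarith
    set m := min (Real.sqrt lam) Lam with hm
    have hsq : 0 < Real.sqrt lam := Real.sqrt_pos.2 hlam0
    have hm0 : 0 < m := lt_min hsq hLam
    have hm1 : m ≤ Real.sqrt lam := min_le_left _ _
    have hm2 : m ≤ Lam := min_le_right _ _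
    have hLamα : Lam = α * lam := by
      rw [hα, div_mul_cancel₀ _ hlam0.ne']
    have hmα : m ≤ α * lam := hm2.trans hLamα.le
    have hmsq : m ^ 2 ≤ lam := by
      have := pow_le_pow_left₀ hm0.le hm1 2
      rwa [Real.sq_sqrt hlam0.le] at this
    rcases le_or_gt α (1 / 32) with h | h
    · have k := KK_le (t := t) (R := D) hlam0 hLam (Finset.univ : Finset (Fin 2))
        ![PA 1, PA (-1)] (by
          intro i _
          fin_cases i
          · exact PA_smooth 1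
          · exact PA_smooth (-1)) (sumA hα0 h)
      rw [Fin.sum_univ_two] at k
      simp only [Matrix.cons_val_zero, Matrix.cons_val_one] at k
      have hmT : m ^ 2 * (1 + (10 * α) ^ 2 * (t * lam)) ≤ 4 * (10 * α) ^ 2 * lam ^ 2 := by
        have e1 : m ^ 2 ≤ (α * lam) ^ 2 := pow_le_pow_left₀ hm0.le hmα 2
        have e2 : m ^ 2 * ((10 * α) ^ 2 * (t * lam)) ≤ lam * ((10 * α) ^ 2 * (2 * lam)) := by
          gcongr
        nlinarith [mul_pos hα0 hlam0]
      have k1 := hCA α _ (10 * α) (t * lam) lam D m hα0 hα4 (by positivity) (by linarith) hT0 hlam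
        hTl (TSA (Or.inl rfl) hα0 h) hD0 hm0 hmα hmT
        (fun σ z hσ hz => geoA (Or.inl rfl) (by positivity) hT0 hlam hTl (by linarith) σ z hσ hz)
      have k2 := hCA' α _ (10 * α) (t * lam) lam D m hα0 hα4 (by positivity) (by linarith) hT0 hlam
        hTl (TSA (Or.inr rfl) hα0 h) hD0 hm0 hmα hmT
        (fun σ z hσ hz => geoA (Or.inr rfl) (by positivity) hT0 hlam hTl (by linarith) σ z hσ hz)
      refine (k.trans (add_le_add k1 k2)).trans ?_
      rw [← add_mul]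
      refine mul_le_mul_left ?_ _
      push_cast
      rw [add_assoc, add_assoc]
      exact le_self_add
    · have k := KK_le (t := t) (R := D) hlam0 hLam (Finset.univ : Finset (Fin 3))
        ![PB 1, PB (-1), P0] (by
          intro i _
          fin_cases i
          · exact PB_smooth 1
          · exact PB_smooth (-1)
          · exact P0_smooth) sumB
      rw [Fin.sum_univ_three] at k
      simp only [Matrix.cons_val_zero, Matrix.cons_val_one, Matrix.cons_val] at k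
      have hmT : m ^ 2 * (1 + (1 : ℝ) ^ 2 * (t * lam)) ≤ 4 * (1 : ℝ) ^ 2 * lam ^ 2 := by
        have e1 : m ^ 2 * (1 + (1 : ℝ) ^ 2 * (t * lam)) ≤ lam * (lam + 1 * (2 * lam)) := by
          rw [one_pow]
          gcongr
        nlinarith
      have k1 := hCB α _ 1 (t * lam) lam D m hα0 hα4 one_pos le_rfl hT0 hlam
        hTl (TSB (Or.inl rfl) hα0) hD0 hm0 hmα hmT
        (fun σ z _ hz => geoB hT0 hlam hTl (by linarith) σ z hz)
      have k2 := hCB' α _ 1 (t * lam) lam D m hα0 hα4 one_pos le_rfl hT0 hlam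
        hTl (TSB (Or.inr rfl) hα0) hD0 hm0 hmα hmT
        (fun σ z _ hz => geoB hT0 hlam hTl (by linarith) σ z hz)
      have k3 := hC0 α _ 1 (t * lam) lam D m hα0 hα4 one_pos le_rfl hT0 hlam
        hTl (TS0 hα0) hD0 hm0 hmα hmT
        (fun σ z _ hz => geoB hT0 hlam hTl (by linarith) σ z hz)
      refine (k.trans (add_le_add (add_le_add k1 k2) k3)).trans ?_
      rw [← add_mul, ← add_mul]
      refine mul_le_mul_left ?_ _
      push_cast
      rw [show (CA : ℝ≥0∞) + CA' + CB + CB' + C0 = CA + CA' + (CB + CB' + C0) by ring]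
      exact le_add_self

end Pool.Agent.H90.LS
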