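import Pool.Agent.H83.LS.Basic
import Pool.Agent.H83.LS.Targets1

/-!
Module BASE: small balls.
-/

set_option autoImplicit false

open MeasureTheory Set
open scoped ENNReal NNReal

namespace Pool.Agent.H90.LS

open Pool.Agent.H83.LS

/-- the cutoff which is `1` on `QQ` -/
noncomputable def chQ (ζ : ℝ × ℝ) : ℂ := ∑ j ∈ Finset.Icc (-3 : ℤ) 3, sc 1 (j * 1) ζ

lemma chQ_TC (cut : T_CUT) : TC chQ := TC.sum _ _ fun j _ => (cut.1 1 (j * 1) one_pos).1

lemma chQ_one (cut : T_CUT) {ζ : ℝ × ℝ} (h : ζ ∈ QQ) : chQ ζ = 1 :=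
  cut.2.1 1 3 one_pos (by norm_num) ζ h

lemma chQ_supp (cut : T_CUT) {ζ : ℝ × ℝ} (h : chQ ζ ≠ 0) : 1 / 8 ≤ ζ.1 ∧ ‖ζ‖ ≤ 16 := by
  obtain ⟨j, hj, hj'⟩ := Finset.exists_ne_zero_of_sum_ne_zero h
  obtain ⟨h1, h2, h3⟩ := (cut.1 1 (j * 1) one_pos).2.2 ζ hj'
  refine ⟨h1, ?_⟩
  rw [Finset.mem_Icc] at hj
  have hj1 : (-3 : ℝ) ≤ j := by exact_mod_cast hj.1
  have hj2 : (j : ℝ) ≤ 3 := by exact_mod_cast hj.2
  rw [Prod.norm_def, max_le_iff, Real.norm_eq_abs, Real.norm_eq_abs, abs_le, abs_le]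
  rw [abs_le] at h3
  have h0 : 0 ≤ ζ.1 := by linarith
  have k1 := mul_le_mul_of_nonneg_right hj1 h0
  have k2 := mul_le_mul_of_nonneg_right hj2 h0
  refine ⟨⟨by linarith, by linarith⟩, ⟨by linarith, by linarith⟩⟩

/-- the phase is smooth in all variables -/
lemma contDiffAt_ph (q : (Fin 2 → ℝ) × (ℝ × ℝ)) (hq : 0 < q.2.1) :
    ContDiffAt ℝ (⊤ : ℕ∞) (fun q : (Fin 2 → ℝ) × (ℝ × ℝ) => ph (q.1 0) q.2) q := by
  unfold ph
  have h1 : ContDiffAt ℝ (⊤ : ℕ∞) (fun q : (Fin 2 → ℝ) × (ℝ × ℝ) =>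
      q.2.1 ^ 2 + (q.1 0) ^ 2 * q.2.2 ^ 2) q := by fun_prop
  have h2 : q.2.1 ^ 2 + (q.1 0) ^ 2 * q.2.2 ^ 2 ≠ 0 := by positivity
  have h3 := (h1.sqrt h2).add (g := fun q : (Fin 2 → ℝ) × (ℝ × ℝ) => q.2.1) (by fun_prop)
  have h4 : Real.sqrt (q.2.1 ^ 2 + (q.1 0) ^ 2 * q.2.2 ^ 2) + q.2.1 ≠ 0 := by positivity
  have h5 : ContDiffAt ℝ (⊤ : ℕ∞) (fun q : (Fin 2 → ℝ) × (ℝ × ℝ) => q.2.2 ^ 2) q := by fun_prop
  exact h5.div h3 h4

lemma continuous_Fi {b : ℝ × ℝ → ℂ} (hb : Integrable b) : Continuous (Fi b) := by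
  unfold Fi
  refine continuous_of_dominated (bound := fun ζ => ‖b ζ‖) ?_ ?_ hb.norm ?_
  · intro y
    exact (integrable_e_mul hb y).aestronglyMeasurable
  · intro y
    refine Filter.Eventually.of_forall fun ζ => ?_
    rw [norm_mul, norm_e, one_mul]
  · refine Filter.Eventually.of_forall fun ζ => ?_
    exact (continuous_e.comp (by fun_prop)).mul continuous_const

/-- uniform decay of the kernels -/
lemma kernel_decay (kb : T_KB) (cut : T_CUT) (r₀ : ℝ) : ∃ C : ℝ, 0 ≤ C ∧ ∀ a ∈ Icc (0 : ℝ) 1,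
    ∀ s : ℝ, |s| ≤ r₀ → ∀ y : ℝ × ℝ,
      ‖Fi (fun ζ => e (s * ph a ζ) * chQ ζ) y‖ * ((1 + |y.1|) * (1 + |y.2|)) ^ 6 ≤ C := by
  set K : Set (Fin 2 → ℝ) := Icc ![0, -r₀] ![1, r₀] with hK
  have hKc : IsCompact K := isCompact_Icc
  set Ψ : (Fin 2 → ℝ) × (ℝ × ℝ) → ℂ := fun q => e (q.1 1 * ph (q.1 0) q.2) * chQ q.2 with hΨ
  have hsm : ContDiffOn ℝ (⊤ : ℕ∞) Ψ (univ ×ˢ univ) := by
    intro q _
    refine ContDiffAt.contDiffWithinAt ?_
    rcases lt_or_ge q.2.1 (1 / 8) with h | h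
    · have hev : Ψ =ᶠ[nhds q] fun _ => 0 := by
        have : IsOpen {q : (Fin 2 → ℝ) × (ℝ × ℝ) | q.2.1 < 1 / 8} :=
          isOpen_lt (by fun_prop) continuous_const
        filter_upwards [this.mem_nhds h] with q' hq'
        simp only [hΨ]
        have : chQ q'.2 = 0 := by
          by_contra hne
          have := (chQ_supp cut hne).1
          have hq'' : q'.2.1 < 1 / 8 := hq'
          linarith
        rw [this, mul_zero]
      exact contDiffAt_const.congr_of_eventuallyEq hev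
    · have h1 := contDiffAt_ph q (by linarith)
      have h2 : ContDiffAt ℝ (⊤ : ℕ∞) (fun q : (Fin 2 → ℝ) × (ℝ × ℝ) => q.1 1) q := by fun_prop
      have h3 := (contDiff_e.contDiffAt (x := q.1 1 * ph (q.1 0) q.2)).comp q (h2.mul h1)
      have h4 : ContDiffAt ℝ (⊤ : ℕ∞) (fun q : (Fin 2 → ℝ) × (ℝ × ℝ) => chQ q.2) q :=
        ((chQ_TC cut).1.contDiffAt).comp q contDiffAt_snd
      exact h3.mul h4
  obtain ⟨C, hC⟩ := kb 2 K univ Ψ 16 hKc isOpen_univ (subset_univ _) hsm (by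
    intro p _ ζ hζ
    simp only [hΨ]
    have : chQ ζ = 0 := by
      by_contra hne
      have := (chQ_supp cut hne).2
      linarith
    rw [this, mul_zero]) 6
  refine ⟨max C 0, le_max_right _ _, ?_⟩
  intro a ha s hs y
  have hp : (![a, s] : Fin 2 → ℝ) ∈ K := by
    rw [abs_le] at hs
    rw [hK]
    constructor
    · intro i
      fin_cases i
      · exact ha.1
      · exact hs.1
    · intro i
      fin_cases i
      · exact ha.2
      · exact hs.2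
  refine le_trans ?_ (le_max_left _ _)
  exact hC _ hp y

lemma weight_lintegral : ∫⁻ z : ℝ × ℝ, ENNReal.ofReal ((1 + ‖z‖) ^ (-(4 : ℝ))) < ⊤ := by
  have h : Integrable (fun z : ℝ × ℝ => (1 + ‖z‖) ^ (-(4 : ℝ))) :=
    integrable_one_add_norm (by
      rw [Module.finrank_prod]
      simp
      norm_num)
  have h2 := h.lintegral_lt_top
  exact h2

lemma P_ge (z : ℝ × ℝ) : 1 + ‖z‖ ≤ (1 + |z.1|) * (1 + |z.2|) := by
  rw [Prod.norm_def, Real.norm_eq_abs, Real.norm_eq_abs]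
  have h1 := abs_nonneg z.1
  have h2 := abs_nonneg z.2
  rcases max_cases |z.1| |z.2| with ⟨h, -⟩ | ⟨h, -⟩ <;> rw [h] <;> nlinarith

lemma key_w {r : ℝ} (hr : 1 ≤ r) (u v w : ℝ) (hvw : |v - w| ≤ r) :
    1 + |u - w| / r ≤ 2 * (1 + |v - u|) := by
  have hr0 : 0 < r := by linarith
  have h7 : |u - w| ≤ |v - u| + r := by
    have := abs_sub_le u v w
    rw [abs_sub_comm u v] at this
    linarith
  have h8 : |u - w| / r ≤ |v - u| + 1 := by
    rw [div_le_iff₀ hr0]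
    have h9 : |v - u| * 1 ≤ |v - u| * r := mul_le_mul_of_nonneg_left hr (abs_nonneg _)
    linarith
  linarith [abs_nonneg (v - u)]

lemma alg_w {k P W C0 : ℝ} (hP : 0 < P) (hk0 : 0 ≤ k) (hk : k * P ^ 6 ≤ C0)
    (hw : W ≤ 2 ^ 16 * P ^ 8) : k ^ 2 * W ≤ C0 ^ 2 * 2 ^ 16 * (P ^ 4)⁻¹ := by
  have h6 : (k * P ^ 6) ^ 2 ≤ C0 ^ 2 := pow_le_pow_left₀ (by positivity) hk 2
  have h10 : P ^ 12 * (P ^ 4)⁻¹ = P ^ 8 := by
    rw [show P ^ 12 = P ^ 8 * P ^ 4 by ring, mul_assoc, mul_inv_cancel₀ (pow_pos hP 4).ne',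
      mul_one]
  calc k ^ 2 * W ≤ k ^ 2 * (2 ^ 16 * P ^ 8) := mul_le_mul_of_nonneg_left hw (by positivity)
    _ = (k * P ^ 6) ^ 2 * (2 ^ 16 * (P ^ 4)⁻¹) := by
        rw [← h10]
        ring
    _ ≤ C0 ^ 2 * (2 ^ 16 * (P ^ 4)⁻¹) := mul_le_mul_of_nonneg_right h6 (by positivity)
    _ = _ := by ring

/-- pointwise bound by the energy -/
lemma point_bound (kb : T_KB) (conv : T_CONV) (cut : T_CUT) (tcu : T_TCU) (r₀ : ℝ) :
    ∃ C : ℝ≥0, ∀ a ∈ Icc (0 : ℝ) 1, ∀ (r s₀ t : ℝ) (y₀ y : ℝ × ℝ) (b : ℝ × ℝ → ℂ),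
      1 ≤ r → TS QQ b → |t - s₀| ≤ r₀ → ‖y - y₀‖ ≤ r →
      ‖U a t b y‖ₑ ≤ C * (En r y₀ (U a s₀ b)) ^ (1 / 2 : ℝ) := by
  obtain ⟨C0, hC0, hdec⟩ := kernel_decay kb cut r₀
  set W : ℝ≥0∞ := ∫⁻ z : ℝ × ℝ, ENNReal.ofReal ((1 + ‖z‖) ^ (-(4 : ℝ))) with hW
  have hWt : W < ⊤ := weight_lintegral
  have hfin : (ENNReal.ofReal (C0 ^ 2 * 2 ^ 16) * W) ^ (1 / 2 : ℝ) < ⊤ :=
    ENNReal.rpow_lt_top_of_nonneg (by norm_num)
      (ENNReal.mul_ne_top ENNReal.ofReal_ne_top hWt.ne)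
  refine ⟨((ENNReal.ofReal (C0 ^ 2 * 2 ^ 16) * W) ^ (1 / 2 : ℝ)).toNNReal, ?_⟩
  intro a ha r s₀ t y₀ y b hr hb ht hy
  rw [ENNReal.coe_toNNReal hfin.ne]
  have hr0 : 0 < r := by linarith
  -- the two functions
  set χ : ℝ × ℝ → ℂ := fun ζ => e ((t - s₀) * ph a ζ) * chQ ζ with hχ
  set b' : ℝ × ℝ → ℂ := fun ζ => e (s₀ * ph a ζ) * b ζ with hb'
  have hχTC : TC χ := tcu a ha _ _ (chQ_TC cut) fun ζ h => by
    have := (chQ_supp cut h).1
    linarith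
  have hbTC : TC b' := tcu a ha _ _ hb.1 fun ζ h => by
    have := (hb.2 ζ h).1
    linarith
  have hU : U a t b y = ∫ y', Fi χ (y - y') * U a s₀ b y' := by
    have h1 : U a t b = Fi (fun ζ => χ ζ * b' ζ) := by
      funext y
      unfold U
      congr 1
      funext ζ
      simp only [hχ, hb']
      by_cases h : b ζ = 0
      · rw [h]
        ring
      · rw [chQ_one cut (hb.2 ζ h), show t * ph a ζ = (t - s₀) * ph a ζ + s₀ * ph a ζ by ring,
          e_add]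
        ring
    rw [h1]
    exact conv χ b' hχTC hbTC y
  set G := U a s₀ b with hG
  have hGc : Continuous G := by
    have : G = Fi b' := rfl
    rw [this]
    exact continuous_Fi hbTC.integrable
  have hKc : Continuous (Fi χ) := continuous_Fi hχTC.integrable
  -- Cauchy-Schwarz
  set f : ℝ × ℝ → ℝ≥0∞ := fun y' => ‖Fi χ (y - y')‖ₑ *
    ENNReal.ofReal (Real.sqrt (om r (y' - y₀)))⁻¹ with hf
  set g : ℝ × ℝ → ℝ≥0∞ := fun y' => ENNReal.ofReal (Real.sqrt (om r (y' - y₀))) * ‖G y'‖ₑ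
    with hg
  have hom : Measurable fun y' : ℝ × ℝ => om r (y' - y₀) :=
    (measurable_om r).comp (measurable_id.sub_const y₀)
  have hfm1 : Measurable fun y' : ℝ × ℝ => ‖Fi χ (y - y')‖ₑ :=
    (hKc.comp (continuous_const.sub continuous_id)).measurable.enorm
  have hfm2 : Measurable fun y' : ℝ × ℝ =>
      ENNReal.ofReal (Real.sqrt (om r (y' - y₀)))⁻¹ := (hom.sqrt.inv).ennreal_ofReal
  have hfm : Measurable f := hfm1.mul hfm2
  have hgm : Measurable g := (hom.sqrt.ennreal_ofReal).mul hGc.measurable.enorm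
  have h1 : ‖U a t b y‖ₑ ≤ ∫⁻ y', f y' * g y' := by
    rw [hU]
    refine (enorm_integral_le_lintegral_enorm _).trans (lintegral_mono fun y' => ?_)
    rw [enorm_mul]
    simp only [hf, hg]
    have hs : 0 < Real.sqrt (om r (y' - y₀)) := Real.sqrt_pos.2 (om_pos r hr0 _)
    have h2 : ENNReal.ofReal (Real.sqrt (om r (y' - y₀)))⁻¹ *
        ENNReal.ofReal (Real.sqrt (om r (y' - y₀))) = 1 := by
      rw [← ENNReal.ofReal_mul (by positivity), inv_mul_cancel₀ hs.ne', ENNReal.ofReal_one]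
    calc ‖Fi χ (y - y')‖ₑ * ‖G y'‖ₑ = ‖Fi χ (y - y')‖ₑ * 1 * ‖G y'‖ₑ := by rw [mul_one]
      _ ≤ _ := by
        rw [← h2]
        refine le_of_eq ?_
        ring
  have h2 := ENNReal.lintegral_mul_le_Lp_mul_Lq volume
    (Real.HolderConjugate.two_two) hfm.aemeasurable hgm.aemeasurable
  have hsq : ∀ x : ℝ≥0∞, x ^ (2 : ℝ) = x ^ 2 := fun x => by
    rw [← ENNReal.rpow_natCast]
    norm_num
  have h3 : ∫⁻ y', g y' ^ (2 : ℝ) = En r y₀ G := by
    unfold En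
    refine lintegral_congr fun y' => ?_
    simp only [hg]
    rw [hsq, mul_pow, ← ENNReal.ofReal_pow (Real.sqrt_nonneg _), Real.sq_sqrt (om_pos r hr0 _).le]
  have h4 : ∫⁻ y', f y' ^ (2 : ℝ) ≤ ENNReal.ofReal (C0 ^ 2 * 2 ^ 16) * W := by
    have h5 : ∀ y', f y' ^ (2 : ℝ) ≤ ENNReal.ofReal (C0 ^ 2 * 2 ^ 16) *
        ENNReal.ofReal ((1 + ‖y - y'‖) ^ (-(4 : ℝ))) := by
      intro y'
      simp only [hf]
      rw [hsq, ← ofReal_norm, ← ENNReal.ofReal_mul (norm_nonneg _),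
        ← ENNReal.ofReal_pow (by positivity), ← ENNReal.ofReal_mul (by positivity)]
      apply ENNReal.ofReal_le_ofReal
      rw [mul_pow, inv_pow, Real.sq_sqrt (om_pos r hr0 _).le]
      unfold om
      rw [inv_inv]
      set z := y - y' with hz
      set P := (1 + |z.1|) * (1 + |z.2|) with hP
      have hP1 : 1 + ‖z‖ ≤ P := P_ge z
      have hP0 : 0 < P := by positivity
      have hk := hdec a ha (t - s₀) ht z
      have hw : ((1 + |(y' - y₀).1| / r) * (1 + |(y' - y₀).2| / r)) ^ 8 ≤ 2 ^ 16 * P ^ 8 := by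
        have hy1 : |y.1 - y₀.1| ≤ r := by
          have := norm_fst_le (y - y₀)
          rw [Real.norm_eq_abs] at this
          exact this.trans hy
        have hy2 : |y.2 - y₀.2| ≤ r := by
          have := norm_snd_le (y - y₀)
          rw [Real.norm_eq_abs] at this
          exact this.trans hy
        have k1 := key_w hr y'.1 y.1 y₀.1 hy1
        have k2 := key_w hr y'.2 y.2 y₀.2 hy2
        have h9 : (1 + |(y' - y₀).1| / r) * (1 + |(y' - y₀).2| / r) ≤ 4 * P := by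
          calc (1 + |(y' - y₀).1| / r) * (1 + |(y' - y₀).2| / r)
              ≤ (2 * (1 + |z.1|)) * (2 * (1 + |z.2|)) :=
                mul_le_mul k1 k2 (by positivity) (by positivity)
            _ = 4 * P := by rw [hP]; ring
        calc ((1 + |(y' - y₀).1| / r) * (1 + |(y' - y₀).2| / r)) ^ 8 ≤ (4 * P) ^ 8 :=
              pow_le_pow_left₀ (by positivity) h9 8
          _ = 2 ^ 16 * P ^ 8 := by ring
      have hlast : P ^ (-(4 : ℝ)) ≤ (1 + ‖z‖) ^ (-(4 : ℝ)) :=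
        Real.rpow_le_rpow_of_nonpos (by positivity) hP1 (by norm_num)
      have hP4 : P ^ (-(4 : ℝ)) = (P ^ 4)⁻¹ := by
        rw [Real.rpow_neg hP0.le]
        congr 1
        rw [show (4 : ℝ) = ((4 : ℕ) : ℝ) by norm_num, Real.rpow_natCast]
      rw [hP4] at hlast
      exact (alg_w hP0 (norm_nonneg _) hk hw).trans
        (mul_le_mul_of_nonneg_left hlast (by positivity))
    refine (lintegral_mono h5).trans ?_
    rw [lintegral_const_mul' _ _ ENNReal.ofReal_ne_top]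
    refine mul_le_mul_right ?_ _
    rw [hW]
    refine le_of_eq ?_
    exact lintegral_sub_left_eq_self (fun z : ℝ × ℝ => ENNReal.ofReal ((1 + ‖z‖) ^ (-(4 : ℝ)))) y
  refine h1.trans (h2.trans ?_)
  rw [h3]
  gcongr

theorem base (kb : T_KB) (conv : T_CONV) (cut : T_CUT) (tcu : T_TCU) : T_BASE := by
  intro r₀ hr₀
  obtain ⟨C, hC⟩ := point_bound kb conv cut tcu r₀
  refine ⟨C ^ 3 * (2 * r₀).toNNReal * ((2 * r₀).toNNReal * (2 * r₀).toNNReal), ?_⟩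
  intro a ha r s₀ y₀ b hr hr' hb
  set E : ℝ≥0∞ := ∏ i, (En r y₀ (U a s₀ (b i))) ^ (1 / 2 : ℝ) with hE
  have h1 : ∀ t ∈ Icc (s₀ - r) (s₀ + r), ∀ y ∈ Metric.closedBall y₀ r,
      ∏ i, ‖U a t (b i) y‖ₑ ≤ C ^ 3 * E := by
    intro t ht y hy
    have h2 : ∏ i, ‖U a t (b i) y‖ₑ ≤
        ∏ i : Fin 3, ((C : ℝ≥0∞) * (En r y₀ (U a s₀ (b i))) ^ (1 / 2 : ℝ)) := by
      refine Finset.prod_le_prod' fun i _ => ?_
      refine hC a ha r s₀ t y₀ y (b i) hr (hb i) ?_ ?_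
      · rw [abs_le]
        exact ⟨by linarith [ht.1], by linarith [ht.2]⟩
      · rw [Metric.mem_closedBall, dist_eq_norm] at hy
        exact hy
    rw [Finset.prod_mul_distrib, Finset.prod_const, Finset.card_univ, Fintype.card_fin] at h2
    exact h2
  unfold tri
  have hvol1 : volume (Icc (s₀ - r) (s₀ + r)) ≤ ((2 * r₀).toNNReal : ℝ≥0∞) := by
    rw [Real.volume_Icc]
    exact ENNReal.ofReal_le_ofReal (by linarith)
  have hvol2 : volume (Metric.closedBall y₀ r) ≤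
      ((2 * r₀).toNNReal : ℝ≥0∞) * ((2 * r₀).toNNReal : ℝ≥0∞) := by
    have : Metric.closedBall y₀ r = Metric.closedBall y₀.1 r ×ˢ Metric.closedBall y₀.2 r :=
      (closedBall_prod_same y₀.1 y₀.2 r).symm
    rw [this, Measure.volume_eq_prod, Measure.prod_prod, Real.volume_closedBall,
      Real.volume_closedBall]
    exact mul_le_mul' (ENNReal.ofReal_le_ofReal (by linarith))
      (ENNReal.ofReal_le_ofReal (by linarith))
  calc ∫⁻ t in Icc (s₀ - r) (s₀ + r), ∫⁻ y in Metric.closedBall y₀ r, ∏ i, ‖U a t (b i) y‖ₑ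
      ≤ ∫⁻ t in Icc (s₀ - r) (s₀ + r), ∫⁻ y in Metric.closedBall y₀ r, C ^ 3 * E := by
        refine setLIntegral_mono' measurableSet_Icc fun t ht => ?_
        exact setLIntegral_mono' Metric.isClosed_closedBall.measurableSet fun y hy => h1 t ht y hy
    _ = C ^ 3 * E * volume (Metric.closedBall y₀ r) * volume (Icc (s₀ - r) (s₀ + r)) := by
        rw [setLIntegral_const, setLIntegral_const]
    _ ≤ C ^ 3 * E * (((2 * r₀).toNNReal : ℝ≥0∞) * ((2 * r₀).toNNReal : ℝ≥0∞)) *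
        ((2 * r₀).toNNReal : ℝ≥0∞) := by gcongr
    _ = _ := by
        push_cast
        ring

end Pool.Agent.H90.LS
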