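import Pool.Agent.H83.LS.Targets1

/-!
Module BN: broad or narrow.
-/

set_option autoImplicit false

open MeasureTheory Set
open scoped ENNReal NNReal

namespace Pool.Agent.H90.LS

open Pool.Agent.H83.LS

lemma near_card {M : ℕ} (j₁ : Fin M) :
    ((Finset.univ : Finset (Fin M)).filter (fun j : Fin M => ¬ 3 ≤ |(j₁ : ℤ) - (j : ℤ)|)).card ≤ 5 := by
  have h : ((Finset.univ : Finset (Fin M)).filter (fun j : Fin M => ¬ 3 ≤ |(j₁ : ℤ) - (j : ℤ)|)).card ≤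
      (Finset.Icc (-2 : ℤ) 2).card := by
    apply Finset.card_le_card_of_injOn (fun j : Fin M => (j₁ : ℤ) - (j : ℤ))
    · intro j hj
      simp only [Finset.coe_filter, Finset.mem_univ, true_and, Set.mem_ofPred_eq, not_le] at hj
      simp only [Finset.coe_Icc, Set.mem_Icc]
      rw [abs_lt] at hj
      constructor <;> omega
    · intro a _ b _ hab
      simp only at hab
      apply Fin.ext
      omega
  simpa using h

/-- removing the neighbours of an index -/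
lemma remove_near {M : ℕ} (a : Fin M → ℝ) (ha : ∀ j, 0 ≤ a j) (m : ℝ) (hm : ∀ j, a j ≤ m)
    (S : Finset (Fin M)) (j₁ : Fin M) :
    ∑ j ∈ S, a j ≤ ∑ j ∈ S.filter (fun j : Fin M => 3 ≤ |(j₁ : ℤ) - (j : ℤ)|), a j + 5 * m := by
  have hm0 : 0 ≤ m := (ha j₁).trans (hm j₁)
  rw [← Finset.sum_filter_add_sum_filter_not S (fun j : Fin M => 3 ≤ |(j₁ : ℤ) - (j : ℤ)|)]
  have h1 : ∑ j ∈ S.filter (fun j : Fin M => ¬ 3 ≤ |(j₁ : ℤ) - (j : ℤ)|), a j ≤ 5 * m := by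
    have h2 := Finset.sum_le_card_nsmul (S.filter (fun j : Fin M => ¬ 3 ≤ |(j₁ : ℤ) - (j : ℤ)|)) a m
      (fun j _ => hm j)
    have h3 : (S.filter (fun j : Fin M => ¬ 3 ≤ |(j₁ : ℤ) - (j : ℤ)|)).card ≤ 5 :=
      (Finset.card_le_card (Finset.filter_subset_filter _ (Finset.subset_univ S))).trans
        (near_card j₁)
    rw [nsmul_eq_mul] at h2
    have h4 : ((S.filter (fun j : Fin M => ¬ 3 ≤ |(j₁ : ℤ) - (j : ℤ)|)).card : ℝ) ≤ 5 := by
      exact_mod_cast h3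
    exact h2.trans (mul_le_mul_of_nonneg_right h4 hm0)
  linarith

/-- a large element of a set with large sum -/
lemma exists_large {M : ℕ} (a : Fin M → ℝ) (ha : ∀ j, 0 ≤ a j) (S : Finset (Fin M)) (B : ℝ)
    (hB : 0 < B) (h : B ≤ ∑ j ∈ S, a j) : ∃ j ∈ S, B ≤ M * a j := by
  have hne : S.Nonempty := by
    by_contra hne
    rw [Finset.not_nonempty_iff_eq_empty] at hne
    rw [hne, Finset.sum_empty] at h
    linarith
  obtain ⟨j, hj, hmax⟩ := S.exists_max_image a hne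
  refine ⟨j, hj, h.trans ?_⟩
  have h2 := Finset.sum_le_card_nsmul S a (a j) hmax
  rw [nsmul_eq_mul] at h2
  refine h2.trans (mul_le_mul_of_nonneg_right ?_ (ha j))
  have : S.card ≤ M := by
    have := Finset.card_le_univ S
    rwa [Fintype.card_fin] at this
  exact_mod_cast this

lemma bn_real (M : ℕ) (p : ℝ) (z : Fin M → ℂ) (hp : 2 ≤ p) (hp' : p ≤ 3) :
    ‖∑ j, z j‖ ^ p ≤ 8000 * ∑ j, ‖z j‖ ^ p +
      (6 * M ^ 3 : ℝ) * ∑ t ∈ (Finset.univ : Finset (Fin M × Fin M × Fin M)).filter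
        (fun t => 3 ≤ |(t.1 : ℤ) - (t.2.1 : ℤ)| ∧ 3 ≤ |(t.1 : ℤ) - (t.2.2 : ℤ)| ∧
          3 ≤ |(t.2.1 : ℤ) - (t.2.2 : ℤ)|),
        (‖z t.1‖ * ‖z t.2.1‖ * ‖z t.2.2‖) ^ (p / 3) := by
  have hn1 : 0 ≤ ∑ j, ‖z j‖ ^ p := Finset.sum_nonneg fun j _ => by positivity
  have hn2 : 0 ≤ ∑ t ∈ (Finset.univ : Finset (Fin M × Fin M × Fin M)).filter
        (fun t => 3 ≤ |(t.1 : ℤ) - (t.2.1 : ℤ)| ∧ 3 ≤ |(t.1 : ℤ) - (t.2.2 : ℤ)| ∧
          3 ≤ |(t.2.1 : ℤ) - (t.2.2 : ℤ)|),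
        (‖z t.1‖ * ‖z t.2.1‖ * ‖z t.2.2‖) ^ (p / 3) :=
    Finset.sum_nonneg fun t _ => by positivity
  set S : ℝ := ‖∑ j, z j‖ with hS
  have hS0 : 0 ≤ S := norm_nonneg _
  rcases Nat.eq_zero_or_pos M with hM | hM
  · subst hM
    have : S = 0 := by
      rw [hS]
      simp
    rw [this, Real.zero_rpow (by linarith)]
    positivity
  set a : Fin M → ℝ := fun j => ‖z j‖ with ha
  have ha0 : ∀ j, 0 ≤ a j := fun j => norm_nonneg _
  have hsum : S ≤ ∑ j, a j := norm_sum_le _ _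
  obtain ⟨j₁, -, hj₁⟩ := (Finset.univ : Finset (Fin M)).exists_max_image a
    ⟨⟨0, hM⟩, Finset.mem_univ _⟩
  have hmax : ∀ j, a j ≤ a j₁ := fun j => hj₁ j (Finset.mem_univ _)
  rcases le_or_gt S (14 * a j₁) with h | h
  · have h1 : S ^ p ≤ (14 * a j₁) ^ p := Real.rpow_le_rpow hS0 h (by linarith)
    have h2 : (14 * a j₁) ^ p = 14 ^ p * a j₁ ^ p := Real.mul_rpow (by norm_num) (ha0 _)
    have h3 : (14 : ℝ) ^ p ≤ 14 ^ (3 : ℝ) := Real.rpow_le_rpow_of_exponent_le (by norm_num) hp'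
    have h4 : (14 : ℝ) ^ (3 : ℝ) = 2744 := by
      rw [show (3 : ℝ) = ((3 : ℕ) : ℝ) from by norm_num, Real.rpow_natCast]
      norm_num
    have h5 : a j₁ ^ p ≤ ∑ j, ‖z j‖ ^ p :=
      Finset.single_le_sum (f := fun j => ‖z j‖ ^ p) (fun j _ => by positivity)
        (Finset.mem_univ j₁)
    have h6 : 0 ≤ a j₁ ^ p := Real.rpow_nonneg (ha0 _) _
    have h7 : S ^ p ≤ 8000 * ∑ j, ‖z j‖ ^ p := by
      rw [h2] at h1
      rw [h4] at h3
      nlinarith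
    have h8 : (0 : ℝ) ≤ (6 * M ^ 3 : ℝ) := by positivity
    nlinarith [mul_nonneg h8 hn2]
  · -- the broad case
    have hSpos : 0 < S := lt_of_le_of_lt (by have := ha0 j₁; positivity) h
    set R1 := (Finset.univ : Finset (Fin M)).filter (fun j : Fin M => 3 ≤ |(j₁ : ℤ) - (j : ℤ)|) with hR1
    have e1 := remove_near a ha0 (a j₁) hmax Finset.univ j₁
    rw [← hR1] at e1
    obtain ⟨j₂, hj₂, hl₂⟩ := exists_large a ha0 R1 (9 / 14 * S) (by positivity) (by linarith)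
    have e2 := remove_near a ha0 (a j₁) hmax R1 j₂
    obtain ⟨j₃, hj₃, hl₃⟩ := exists_large a ha0
      (R1.filter (fun j : Fin M => 3 ≤ |(j₂ : ℤ) - (j : ℤ)|)) (4 / 14 * S) (by positivity) (by linarith)
    obtain ⟨j₀, -, hl₀⟩ := exists_large a ha0 Finset.univ S hSpos hsum
    have hM' : (0 : ℝ) < M := by exact_mod_cast hM
    have hl₁ : S ≤ M * a j₁ := hl₀.trans (mul_le_mul_of_nonneg_left (hmax _) hM'.le)
    rw [hR1, Finset.mem_filter] at hj₂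
    rw [Finset.mem_filter, hR1, Finset.mem_filter] at hj₃
    have hprod : S ^ (3 : ℕ) ≤ 6 * M ^ 3 * (a j₁ * a j₂ * a j₃) := by
      have f1 : S * (9 / 14 * S) ≤ (M * a j₁) * (M * a j₂) :=
        mul_le_mul hl₁ hl₂ (by positivity) (by have := ha0 j₁; positivity)
      have f2 : S * (9 / 14 * S) * (4 / 14 * S) ≤ (M * a j₁) * (M * a j₂) * (M * a j₃) :=
        mul_le_mul f1 hl₃ (by positivity)
          (by have := ha0 j₁; have := ha0 j₂; positivity)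
      have f3 : S * (9 / 14 * S) * (4 / 14 * S) = 36 / 196 * S ^ 3 := by ring
      have f4 : (M * a j₁) * (M * a j₂) * (M * a j₃) = M ^ 3 * (a j₁ * a j₂ * a j₃) := by ring
      rw [f3, f4] at f2
      have f5 : 0 ≤ M ^ 3 * (a j₁ * a j₂ * a j₃) := by
        have := ha0 j₁
        have := ha0 j₂
        have := ha0 j₃
        positivity
      nlinarith [pow_pos hSpos 3]
    have hp3 : 0 ≤ p / 3 := by linarith
    have h1 : S ^ p = (S ^ (3 : ℕ)) ^ (p / 3) := by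
      rw [← Real.rpow_natCast_mul hS0]
      congr 1
      push_cast
      ring
    have hA : 0 ≤ a j₁ * a j₂ * a j₃ := mul_nonneg (mul_nonneg (ha0 _) (ha0 _)) (ha0 _)
    have h2 : S ^ p ≤ (6 * M ^ 3 : ℝ) ^ (p / 3) * (a j₁ * a j₂ * a j₃) ^ (p / 3) := by
      rw [h1, ← Real.mul_rpow (by positivity) hA]
      exact Real.rpow_le_rpow (by positivity) hprod hp3
    have hone : (1 : ℝ) ≤ 6 * M ^ 3 := by
      have : (1 : ℝ) ≤ M := by exact_mod_cast hM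
      have : (1 : ℝ) ≤ M ^ 3 := one_le_pow₀ this
      linarith
    have h3 : (6 * M ^ 3 : ℝ) ^ (p / 3) ≤ 6 * M ^ 3 := by
      have := Real.rpow_le_rpow_of_exponent_le hone (show p / 3 ≤ 1 by linarith)
      rwa [Real.rpow_one] at this
    have h4 : (a j₁ * a j₂ * a j₃) ^ (p / 3) ≤
        ∑ t ∈ (Finset.univ : Finset (Fin M × Fin M × Fin M)).filter
        (fun t => 3 ≤ |(t.1 : ℤ) - (t.2.1 : ℤ)| ∧ 3 ≤ |(t.1 : ℤ) - (t.2.2 : ℤ)| ∧
          3 ≤ |(t.2.1 : ℤ) - (t.2.2 : ℤ)|),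
        (‖z t.1‖ * ‖z t.2.1‖ * ‖z t.2.2‖) ^ (p / 3) := by
      refine Finset.single_le_sum (f := fun t : Fin M × Fin M × Fin M =>
        (‖z t.1‖ * ‖z t.2.1‖ * ‖z t.2.2‖) ^ (p / 3)) (a := (j₁, j₂, j₃))
        (fun t _ => by positivity) ?_
      rw [Finset.mem_filter]
      exact ⟨Finset.mem_univ _, hj₂.2, hj₃.1.2, hj₃.2⟩
    have h5 : 0 ≤ (a j₁ * a j₂ * a j₃) ^ (p / 3) := Real.rpow_nonneg hA _
    have h6 : S ^ p ≤ (6 * M ^ 3 : ℝ) * ∑ t ∈ (Finset.univ : Finset (Fin M × Fin M × Fin M)).filter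
        (fun t => 3 ≤ |(t.1 : ℤ) - (t.2.1 : ℤ)| ∧ 3 ≤ |(t.1 : ℤ) - (t.2.2 : ℤ)| ∧
          3 ≤ |(t.2.1 : ℤ) - (t.2.2 : ℤ)|),
        (‖z t.1‖ * ‖z t.2.1‖ * ‖z t.2.2‖) ^ (p / 3) := by
      refine h2.trans (mul_le_mul h3 h4 h5 (by positivity))
    linarith

theorem bn : T_BN := by
  intro M
  refine ⟨(6 * M ^ 3 : ℝ).toNNReal, ?_⟩
  intro p z hp hp'
  have h := bn_real M p z hp hp'
  have hp0 : 0 ≤ p := by linarith
  have hp3 : 0 ≤ p / 3 := by linarith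
  have e1 : ∀ w : ℂ, ‖w‖ₑ ^ p = ENNReal.ofReal (‖w‖ ^ p) := by
    intro w
    rw [← ofReal_norm, ENNReal.ofReal_rpow_of_nonneg (norm_nonneg _) hp0]
  have e2 : ∀ t : Fin M × Fin M × Fin M, (‖z t.1‖ₑ * ‖z t.2.1‖ₑ * ‖z t.2.2‖ₑ) ^ (p / 3) =
      ENNReal.ofReal ((‖z t.1‖ * ‖z t.2.1‖ * ‖z t.2.2‖) ^ (p / 3)) := by
    intro t
    rw [← ENNReal.ofReal_rpow_of_nonneg (by positivity) hp3, ENNReal.ofReal_mul (by positivity),
      ENNReal.ofReal_mul (by positivity), ofReal_norm, ofReal_norm, ofReal_norm]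
  simp only [e1, e2]
  rw [← ENNReal.ofReal_sum_of_nonneg (fun j _ => by positivity),
    ← ENNReal.ofReal_sum_of_nonneg (fun t _ => by positivity)]
  have e3 : (8000 : ℝ≥0∞) = ENNReal.ofReal 8000 := by
    rw [ENNReal.ofReal_ofNat]
  have e4 : (((6 * M ^ 3 : ℝ).toNNReal : ℝ≥0) : ℝ≥0∞) = ENNReal.ofReal (6 * M ^ 3) := rfl
  rw [e3, e4, ← ENNReal.ofReal_mul (by norm_num), ← ENNReal.ofReal_mul (by positivity),
    ← ENNReal.ofReal_add (mul_nonneg (by norm_num) (Finset.sum_nonneg fun j _ => by positivity))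
      (mul_nonneg (by positivity) (Finset.sum_nonneg fun t _ => by positivity))]
  exact ENNReal.ofReal_le_ofReal h

end Pool.Agent.H90.LS
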