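import Pool.Agent.H90.LS.BASE
import Pool.Agent.H83.LS.Targets2

/-!
Module KL1, part 1: the kernel of a sector, decomposed into planks.
-/

set_option autoImplicit false

open MeasureTheory Set
open scoped ENNReal NNReal

namespace Pool.Agent.H90.LS

open Pool.Agent.H83.LS

/-- the affine map of the Lorentz rescaling -/
noncomputable def Ym (θ a T : ℝ) (x : ℝ × ℝ) : ℝ × ℝ :=
  (x.1 * Real.cos θ + x.2 * Real.sin θ + T, a * (-(x.1 * Real.sin θ) + x.2 * Real.cos θ))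

lemma continuous_Ym (θ a T : ℝ) : Continuous (Ym θ a T) := by
  unfold Ym
  fun_prop

lemma lintegral_Ym (θ a T : ℝ) (ha : 0 < a) (F : ℝ × ℝ → ℝ≥0∞) (hF : Measurable F) :
    ∫⁻ x, F (Ym θ a T x) = ENNReal.ofReal a⁻¹ * ∫⁻ y, F y := by
  set M : Matrix (Fin 2) (Fin 2) ℝ :=
    !![Real.cos θ, Real.sin θ; -(a * Real.sin θ), a * Real.cos θ] with hM
  set L := Matrix.toLin (Module.Basis.finTwoProd ℝ) (Module.Basis.finTwoProd ℝ) M with hL
  have hdet : LinearMap.det L = a := by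
    rw [hL, LinearMap.det_toLin, hM, Matrix.det_fin_two_of]
    linear_combination a * Real.sin_sq_add_cos_sq θ
  have happ : ∀ x : ℝ × ℝ, Ym θ a T x = L x + (T, 0) := by
    intro x
    rw [hL, hM, Matrix.toLin_finTwoProd_apply]
    unfold Ym
    ext
    · simp
      ring
    · simp
      ring
  have hmap := Measure.map_linearMap_addHaar_eq_smul_addHaar (volume : Measure (ℝ × ℝ))
    (f := L) (by rw [hdet]; exact ha.ne')
  have hLm : Measurable L := L.continuous_of_finiteDimensional.measurable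
  have hF' : Measurable fun y : ℝ × ℝ => F (y + (T, 0)) := hF.comp (measurable_add_const _)
  calc ∫⁻ x, F (Ym θ a T x) = ∫⁻ x, (fun y : ℝ × ℝ => F (y + (T, 0))) (L x) := by
        simp only [happ]
    _ = ∫⁻ y, F (y + (T, 0)) ∂(Measure.map L volume) := (lintegral_map hF' hLm).symm
    _ = ENNReal.ofReal a⁻¹ * ∫⁻ y, F (y + (T, 0)) := by
        rw [hmap, lintegral_smul_measure, hdet, abs_of_pos (inv_pos.2 ha)]
        rfl
    _ = ENNReal.ofReal a⁻¹ * ∫⁻ y, F y := by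
        rw [lintegral_add_right_eq_self]

lemma lintegral_Ym' (θ a T : ℝ) (ha : 0 < a) (F : ℝ × ℝ → ℝ≥0∞) (hF : Measurable F) :
    ∫⁻ x, ENNReal.ofReal a * F (Ym θ a T x) = ∫⁻ y, F y := by
  rw [lintegral_const_mul' _ _ ENNReal.ofReal_ne_top, lintegral_Ym θ a T ha F hF, ← mul_assoc,
    ← ENNReal.ofReal_mul ha.le, mul_inv_cancel₀ ha.ne', ENNReal.ofReal_one, one_mul]

lemma fst_Ym (θ a T : ℝ) (ha : 0 < a) (v : ℝ × ℝ) :
    v.1 = ((Ym θ a T v).1 - T) * Real.cos θ - ((Ym θ a T v).2 / a) * Real.sin θ := by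
  unfold Ym
  simp only
  rw [mul_div_cancel_left₀ _ ha.ne']
  linear_combination (-v.1) * Real.sin_sq_add_cos_sq θ

lemma Ym_sub (θ a T : ℝ) (X x : ℝ × ℝ) : Ym θ a T X - Ym θ a 0 x = Ym θ a T (X - x) := by
  unfold Ym
  ext
  · simp
    ring
  · simp
    ring

/-- Tonelli for convolutions -/
lemma lintegral_conv (k f : ℝ × ℝ → ℝ≥0∞) (hk : Measurable k) (hf : Measurable f) :
    ∫⁻ X, ∫⁻ x, k (X - x) * f x = (∫⁻ v, k v) * ∫⁻ x, f x := by
  rw [lintegral_lintegral_swap]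
  · have h1 : ∀ x : ℝ × ℝ, ∫⁻ X, k (X - x) * f x = (∫⁻ v, k v) * f x := by
      intro x
      have hkx : Measurable fun X : ℝ × ℝ => k (X - x) := hk.comp (measurable_id.sub_const x)
      rw [lintegral_mul_const _ hkx]
      congr 1
      exact lintegral_sub_right_eq_self k x
    simp only [h1]
    exact lintegral_const_mul _ hf
  · exact ((hk.comp (measurable_fst.sub measurable_snd)).mul
      (hf.comp measurable_snd)).aemeasurable

lemma meas_ge (ρ : ℝ) : MeasurableSet {x : ℝ × ℝ | ρ ≤ |x.1|} :=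
  measurableSet_le measurable_const (by fun_prop)

/-- tails of convolutions -/
lemma conv_tail (k f : ℝ × ℝ → ℝ≥0∞) (hk : Measurable k) (hf : Measurable f) (ρ : ℝ) :
    ∫⁻ X in {x : ℝ × ℝ | ρ ≤ |x.1|}, ∫⁻ x, k (X - x) * f x ≤
      (∫⁻ v, k v) * (∫⁻ x in {x : ℝ × ℝ | ρ / 4 ≤ |x.1|}, f x) +
        (∫⁻ v in {v : ℝ × ℝ | 3 * ρ / 4 ≤ |v.1|}, k v) * ∫⁻ x, f x := by
  set A := {x : ℝ × ℝ | ρ / 4 ≤ |x.1|} with hA
  set B := {v : ℝ × ℝ | 3 * ρ / 4 ≤ |v.1|} with hB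
  have hAm : MeasurableSet A := meas_ge _
  have hBm : MeasurableSet B := meas_ge _
  have hk' : Measurable (B.indicator k) := hk.indicator hBm
  have hf' : Measurable (A.indicator f) := hf.indicator hAm
  have h1 : ∀ X ∈ {x : ℝ × ℝ | ρ ≤ |x.1|}, ∫⁻ x, k (X - x) * f x ≤
      (∫⁻ x, k (X - x) * A.indicator f x) + ∫⁻ x, B.indicator k (X - x) * f x := by
    intro X hX
    have hkx : Measurable fun x : ℝ × ℝ => k (X - x) * A.indicator f x :=
      (hk.comp (measurable_const.sub measurable_id)).mul hf'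
    rw [← lintegral_add_left hkx]
    refine lintegral_mono fun x => ?_
    by_cases hx : x ∈ A
    · rw [indicator_of_mem hx]
      exact le_self_add
    · have hx2 : X - x ∈ B := by
        have h2 : ρ ≤ |X.1| := hX
        have h3 : |x.1| < ρ / 4 := not_le.1 hx
        have h4 := abs_sub_abs_le_abs_sub X.1 x.1
        show 3 * ρ / 4 ≤ |(X - x).1|
        rw [Prod.fst_sub]
        linarith
      rw [indicator_of_mem hx2]
      exact le_add_self
  calc ∫⁻ X in {x : ℝ × ℝ | ρ ≤ |x.1|}, ∫⁻ x, k (X - x) * f x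
      ≤ ∫⁻ X in {x : ℝ × ℝ | ρ ≤ |x.1|},
          ((∫⁻ x, k (X - x) * A.indicator f x) + ∫⁻ x, B.indicator k (X - x) * f x) :=
        setLIntegral_mono' (meas_ge ρ) h1
    _ ≤ ∫⁻ X, ((∫⁻ x, k (X - x) * A.indicator f x) + ∫⁻ x, B.indicator k (X - x) * f x) :=
        setLIntegral_le_lintegral _ _
    _ = (∫⁻ v, k v) * (∫⁻ x, A.indicator f x) + (∫⁻ v, B.indicator k v) * ∫⁻ x, f x := by
        rw [lintegral_add_left, lintegral_conv k _ hk hf', lintegral_conv _ f hk' hf]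
        exact Measurable.lintegral_prod_right' (f := fun q : (ℝ × ℝ) × (ℝ × ℝ) =>
          k (q.1 - q.2) * A.indicator f q.2)
          ((hk.comp (measurable_fst.sub measurable_snd)).mul (hf'.comp measurable_snd))
    _ = _ := by rw [lintegral_indicator hAm, lintegral_indicator hBm]

/-- the scale of the planks -/
noncomputable def nu (s : ℝ) : ℝ := 1 / Real.sqrt (1 + s)

lemma nu_pos {s : ℝ} (hs : 0 ≤ s) : 0 < nu s := by
  unfold nu
  positivity

lemma nu_le_one {s : ℝ} (hs : 0 ≤ s) : nu s ≤ 1 := by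
  unfold nu
  rw [div_le_one (by positivity)]
  rw [Real.one_le_sqrt]
  linarith

lemma nu_sq {s : ℝ} (hs : 0 ≤ s) : |s| * nu s ^ 2 ≤ 1 := by
  unfold nu
  rw [abs_of_nonneg hs, div_pow, one_pow, Real.sq_sqrt (by linarith), mul_one_div,
    div_le_one (by linarith)]
  linarith

/-- the number of planks -/
noncomputable def Jn (s : ℝ) : ℤ := ⌈1 / nu s + 1⌉

lemma Jn_ge (s : ℝ) : 1 / nu s + 1 ≤ Jn s := Int.le_ceil _

lemma Jn_lt (s : ℝ) : (Jn s : ℝ) < 1 / nu s + 2 := by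
  have := Int.ceil_lt_add_one (1 / nu s + 1)
  unfold Jn
  linarith

lemma slope_le {s : ℝ} (hs : 0 ≤ s) {j : ℤ} (hj : j ∈ Finset.Icc (-(Jn s)) (Jn s)) :
    |(j : ℝ) * nu s| ≤ 3 := by
  rw [Finset.mem_Icc] at hj
  have h1 : |(j : ℝ)| ≤ Jn s := by
    rw [abs_le]
    constructor
    · exact_mod_cast hj.1
    · exact_mod_cast hj.2
  rw [abs_mul, abs_of_pos (nu_pos hs)]
  have h2 := Jn_lt s
  have h3 := nu_pos hs
  have h4 := nu_le_one hs
  calc |(j : ℝ)| * nu s ≤ (1 / nu s + 2) * nu s :=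
        mul_le_mul_of_nonneg_right (by linarith) h3.le
    _ = 1 + 2 * nu s := by field_simp
    _ ≤ 3 := by linarith

lemma card_planks {s : ℝ} (hs : 0 ≤ s) :
    ((Finset.Icc (-(Jn s)) (Jn s)).card : ℝ≥0∞) ≤ ENNReal.ofReal (7 * Real.sqrt (1 + s)) := by
  have h1 : (0 : ℝ) ≤ Jn s := by
    have := Jn_ge s
    have h2 := nu_pos hs
    have : 0 ≤ 1 / nu s := by positivity
    linarith
  have h1' : 0 ≤ Jn s := by exact_mod_cast h1
  have h2 : ((Finset.Icc (-(Jn s)) (Jn s)).card : ℝ) = 2 * Jn s + 1 := by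
    rw [Int.card_Icc]
    have : ((Jn s + 1 - -(Jn s)).toNat : ℤ) = 2 * Jn s + 1 := by omega
    have h3 : (((Jn s + 1 - -(Jn s)).toNat : ℤ) : ℝ) = ((2 * Jn s + 1 : ℤ) : ℝ) := by rw [this]
    rw [Int.cast_natCast] at h3
    rw [h3]
    push_cast
    ring
  rw [← ENNReal.ofReal_natCast]
  apply ENNReal.ofReal_le_ofReal
  rw [h2]
  have h3 := Jn_lt s
  have h4 : 1 / nu s = Real.sqrt (1 + s) := by
    unfold nu
    rw [one_div_one_div]
  have h5 : 1 ≤ Real.sqrt (1 + s) := by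
    rw [Real.one_le_sqrt]
    linarith
  rw [h4] at h3
  linarith

/-- the kernel of a plank -/
noncomputable def Kj (a s : ℝ) (j : ℤ) : ℝ × ℝ → ℂ := U a s (sc (nu s) (j * nu s))

lemma Kj_symbol_TC (cut : T_CUT) (tcu : T_TCU) {a s : ℝ} (ha : a ∈ Icc (0 : ℝ) 1) (hs : 0 ≤ s)
    (j : ℤ) : TC (fun ζ => e (s * ph a ζ) * sc (nu s) (j * nu s) ζ) := by
  have h := cut.1 (nu s) (j * nu s) (nu_pos hs)
  exact tcu a ha s _ h.1 fun ζ hζ => by
    have := (h.2.2 ζ hζ).1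
    linarith

lemma Kj_cont (cut : T_CUT) (tcu : T_TCU) {a s : ℝ} (ha : a ∈ Icc (0 : ℝ) 1) (hs : 0 ≤ s)
    (j : ℤ) : Continuous (Kj a s j) := by
  unfold Kj U
  exact continuous_Fi (Kj_symbol_TC cut tcu ha hs j).integrable

/-- the kernel of a sector is bounded by the sum of the convolutions with the planks -/
lemma W_le (lor' : T_LOR) (conv : T_CONV) (cut : T_CUT) (tcu : T_TCU) {θ a T : ℝ}
    {b : ℝ × ℝ → ℂ} (ha : 0 < a) (ha1 : a ≤ 1) (hT : 0 ≤ T) (hb : TS (tau θ a) b) (X : ℝ × ℝ) :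
    ‖W T b X‖ₑ ≤ ∑ j ∈ Finset.Icc (-(Jn (a ^ 2 * T))) (Jn (a ^ 2 * T)),
      ∫⁻ x, (ENNReal.ofReal a * ‖Kj a (a ^ 2 * T) j (Ym θ a T (X - x))‖ₑ) * ‖Fi b x‖ₑ := by
  obtain ⟨hQ, hW, -, -⟩ := lor' θ a b ha ha1 hb
  set s := a ^ 2 * T with hs
  have hs0 : 0 ≤ s := by positivity
  have haI : a ∈ Icc (0 : ℝ) 1 := ⟨ha.le, ha1⟩
  set L := lor θ a b with hL
  have hLTC : TC L := hQ.1
  -- the value of the transform
  have hFi : ∀ x, Fi L (Ym θ a 0 x) = Fi b x := by
    intro x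
    have h1 := hW 0 x
    rw [mul_zero, U_zero] at h1
    have h2 : W 0 b x = Fi b x := by
      unfold W Fi
      congr 1
      funext ξ
      rw [zero_mul, add_zero]
    rw [h2] at h1
    rw [h1]
    rfl
  have h1 : W T b X = ∑ j ∈ Finset.Icc (-(Jn s)) (Jn s),
      ∫ y', Kj a s j (Ym θ a T X - y') * Fi L y' := by
    rw [hW T X]
    have h2 : U a s L = Fi (fun ζ => ∑ j ∈ Finset.Icc (-(Jn s)) (Jn s),
        (e (s * ph a ζ) * sc (nu s) (j * nu s) ζ) * L ζ) := by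
      funext y
      unfold U
      congr 1
      funext ζ
      by_cases h : L ζ = 0
      · rw [h]
        simp
      · have h3 := cut.2.1 (nu s) (Jn s) (nu_pos hs0) (Jn_ge s) ζ (hQ.2 ζ h)
        rw [← Finset.sum_mul, ← Finset.mul_sum, h3, mul_one]
    change U a s L (Ym θ a T X) = _
    rw [h2, Fi_sum]
    · refine Finset.sum_congr rfl fun j _ => ?_
      exact conv _ L (Kj_symbol_TC cut tcu haI hs0 j) hLTC _
    · intro j _
      exact (TC.mul (Kj_symbol_TC cut tcu haI hs0 j).1 hLTC).integrable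
  rw [h1]
  refine (enorm_sum_le _ _).trans (Finset.sum_le_sum fun j _ => ?_)
  refine (enorm_integral_le_lintegral_enorm _).trans (le_of_eq ?_)
  have hKc := Kj_cont cut tcu haI hs0 j
  have hm : Measurable fun y' : ℝ × ℝ => ‖Kj a s j (Ym θ a T X - y') * Fi L y'‖ₑ := by
    have hFc : Continuous (Fi L) := continuous_Fi hLTC.integrable
    exact ((hKc.comp (continuous_const.sub continuous_id)).mul hFc).measurable.enorm
  rw [← lintegral_Ym' θ a 0 ha _ hm]
  refine lintegral_congr fun x => ?_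
  rw [enorm_mul, hFi, Ym_sub]
  ring

end Pool.Agent.H90.LS
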