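import Pool.Agent.H90.LS.KL1a

/-!
Module KL1, part 2: the symbols, their kernels, and the estimate for one sector.
-/

set_option autoImplicit false

open MeasureTheory Set
open scoped ENNReal NNReal

namespace Pool.Agent.H90.LS

open Pool.Agent.H83.LS

/-! ### Diagonal changes of variables -/

lemma map_diag (a b : ℝ) (ha : 0 < a) (hb : 0 < b) :
    Measure.map (fun x : ℝ × ℝ => (a * x.1, b * x.2)) volume =
      ENNReal.ofReal (a * b)⁻¹ • (volume : Measure (ℝ × ℝ)) := by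
  set M : Matrix (Fin 2) (Fin 2) ℝ := !![a, 0; 0, b] with hM
  set L := Matrix.toLin (Module.Basis.finTwoProd ℝ) (Module.Basis.finTwoProd ℝ) M with hL
  have hdet : LinearMap.det L = a * b := by
    rw [hL, LinearMap.det_toLin, hM, Matrix.det_fin_two_of]
    ring
  have happ : (fun x : ℝ × ℝ => (a * x.1, b * x.2)) = L := by
    funext x
    rw [hL, hM, Matrix.toLin_finTwoProd_apply]
    ext
    · simp
    · simp
  have hmap := Measure.map_linearMap_addHaar_eq_smul_addHaar (volume : Measure (ℝ × ℝ))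
    (f := L) (by rw [hdet]; positivity)
  rw [happ, hmap, hdet, abs_of_pos (by positivity)]

lemma lintegral_diag (a b : ℝ) (ha : 0 < a) (hb : 0 < b) (F : ℝ × ℝ → ℝ≥0∞)
    (hF : Measurable F) :
    ∫⁻ x : ℝ × ℝ, ENNReal.ofReal (a * b) * F (a * x.1, b * x.2) = ∫⁻ y, F y := by
  have hm : Measurable fun x : ℝ × ℝ => (a * x.1, b * x.2) := by fun_prop
  rw [lintegral_const_mul' _ _ ENNReal.ofReal_ne_top, ← lintegral_map hF hm,
    map_diag a b ha hb, lintegral_smul_measure, smul_eq_mul, ← mul_assoc,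
    ← ENNReal.ofReal_mul (by positivity), mul_inv_cancel₀ (by positivity), ENNReal.ofReal_one,
    one_mul]

lemma integral_diag (a b : ℝ) (ha : 0 < a) (hb : 0 < b) (F : ℝ × ℝ → ℂ)
    (hF : Continuous F) :
    ∫ x : ℝ × ℝ, F (a * x.1, b * x.2) = (((a * b)⁻¹ : ℝ) : ℂ) * ∫ y, F y := by
  have hm : Measurable fun x : ℝ × ℝ => (a * x.1, b * x.2) := by fun_prop
  rw [← integral_map hm.aemeasurable hF.aestronglyMeasurable,
    map_diag a b ha hb, integral_smul_measure, ENNReal.toReal_ofReal (by positivity)]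
  rw [Complex.real_smul]

/-! ### The cutoffs -/

lemma eta0_contDiff : ContDiff ℝ (⊤ : ℕ∞) eta0 := by
  unfold eta0
  exact Real.smoothTransition.contDiff.comp (contDiff_const.sub contDiff_id)

lemma eta0_one {s : ℝ} (h : s ≤ 1) : eta0 s = 1 :=
  Real.smoothTransition.one_of_one_le (by linarith)

lemma eta0_zero {s : ℝ} (h : 2 ≤ s) : eta0 s = 0 :=
  Real.smoothTransition.zero_of_nonpos (by linarith)

lemma chi_contDiff : ContDiff ℝ (⊤ : ℕ∞) chi := by
  unfold chi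
  exact eta0_contDiff.sub (eta0_contDiff.comp (contDiff_const.mul contDiff_id))

lemma chis_contDiff : ContDiff ℝ (⊤ : ℕ∞) chis := by
  unfold chis
  exact (eta0_contDiff.comp (contDiff_id.div_const 2)).sub
    (eta0_contDiff.comp (contDiff_const.mul contDiff_id))

lemma chi_supp {s : ℝ} (h : chi s ≠ 0) : 1 / 2 < s ∧ s < 2 := by
  constructor
  · by_contra h1
    push Not at h1
    apply h
    unfold chi
    rw [eta0_one (by linarith), eta0_one (by linarith), sub_self]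
  · by_contra h1
    push Not at h1
    apply h
    unfold chi
    rw [eta0_zero (by linarith), eta0_zero (by linarith), sub_self]

lemma chis_supp {s : ℝ} (h : chis s ≠ 0) : 1 / 4 < s ∧ s < 4 := by
  constructor
  · by_contra h1
    push Not at h1
    apply h
    unfold chis
    rw [eta0_one (by linarith), eta0_one (by linarith), sub_self]
  · by_contra h1
    push Not at h1
    apply h
    unfold chis
    rw [eta0_zero (by linarith), eta0_zero (by linarith), sub_self]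

lemma chi_sqrt_smooth {E : Type*} [NormedAddCommGroup E] [NormedSpace ℝ E] {w : E → ℝ}
    (hw : ContDiff ℝ (⊤ : ℕ∞) w) : ContDiff ℝ (⊤ : ℕ∞) fun x => chi (Real.sqrt (w x)) := by
  rw [contDiff_iff_contDiffAt]
  intro x
  rcases lt_or_ge (w x) (1 / 4) with h | h
  · have hev : (fun x => chi (Real.sqrt (w x))) =ᶠ[nhds x] fun _ => 0 := by
      have : IsOpen {x | w x < 1 / 4} := isOpen_lt hw.continuous continuous_const
      filter_upwards [this.mem_nhds h] with x' hx'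
      by_contra hne
      have h1 := (chi_supp hne).1
      have h2 : Real.sqrt (w x') ≤ 1 / 2 := by
        rw [show (1 / 2 : ℝ) = Real.sqrt (1 / 4) by
          rw [show (1 / 4 : ℝ) = (1 / 2) ^ 2 by norm_num, Real.sqrt_sq (by norm_num)]]
        exact Real.sqrt_le_sqrt (le_of_lt hx')
      linarith
    exact contDiffAt_const.congr_of_eventuallyEq hev
  · exact (chi_contDiff.contDiffAt).comp x (hw.contDiffAt.sqrt (by linarith))

/-- the symbols -/
noncomputable def bP (α : ℝ) (P : ℝ × ℝ → ℝ) (ξ : ℝ × ℝ) : ℂ :=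
  ((chi (Real.sqrt (ξ.1 ^ 2 + ξ.2 ^ 2)) * chis (ξ.1 / α) * P ξ : ℝ) : ℂ)

/-- the rescaled symbols -/
noncomputable def PsiP (P : ℝ × ℝ → ℝ) (q : (Fin 1 → ℝ) × (ℝ × ℝ)) : ℂ :=
  ((chi (Real.sqrt ((q.1 0 * q.2.1) ^ 2 + q.2.2 ^ 2)) * chis q.2.1 *
    P (q.1 0 * q.2.1, q.2.2) : ℝ) : ℂ)

lemma bP_supp {α : ℝ} (hα : 0 < α) {P : ℝ × ℝ → ℝ} {ξ : ℝ × ℝ} (h : bP α P ξ ≠ 0) :
    (1 / 4 ≤ ξ.1 ^ 2 + ξ.2 ^ 2 ∧ ξ.1 ^ 2 + ξ.2 ^ 2 ≤ 4) ∧ (α / 4 ≤ ξ.1 ∧ ξ.1 ≤ 4 * α) ∧
      P ξ ≠ 0 := by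
  unfold bP at h
  rw [Ne, Complex.ofReal_eq_zero, mul_eq_zero, mul_eq_zero, not_or, not_or] at h
  obtain ⟨⟨h1, h2⟩, h3⟩ := h
  obtain ⟨h4, h5⟩ := chi_supp h1
  obtain ⟨h6, h7⟩ := chis_supp h2
  have h8 : 0 ≤ ξ.1 ^ 2 + ξ.2 ^ 2 := by positivity
  have h9 := Real.sq_sqrt h8
  refine ⟨⟨?_, ?_⟩, ⟨?_, ?_⟩, h3⟩
  · rw [← h9]
    nlinarith
  · rw [← h9]
    nlinarith
  · rw [lt_div_iff₀ hα] at h6
    linarith
  · rw [div_lt_iff₀ hα] at h7
    linarith

lemma bP_TC {α : ℝ} (hα : 0 < α) {P : ℝ × ℝ → ℝ} (hP : ContDiff ℝ (⊤ : ℕ∞) P) : TC (bP α P) := by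
  constructor
  · unfold bP
    refine Complex.ofRealCLM.contDiff.comp (((chi_sqrt_smooth ?_).mul
      (chis_contDiff.comp (contDiff_fst.div_const α))).mul hP)
    fun_prop
  · refine HasCompactSupport.of_support_subset_isCompact
      (isCompact_closedBall (0 : ℝ × ℝ) 2) fun ξ hξ => ?_
    obtain ⟨⟨-, h1⟩, -, -⟩ := bP_supp hα hξ
    rw [mem_closedBall_zero_iff, Prod.norm_def, max_le_iff, Real.norm_eq_abs, Real.norm_eq_abs]
    constructor
    · exact abs_le_of_sq_le_sq (by nlinarith [sq_nonneg ξ.2]) (by norm_num)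
    · exact abs_le_of_sq_le_sq (by nlinarith [sq_nonneg ξ.1]) (by norm_num)

lemma PsiP_contDiff {P : ℝ × ℝ → ℝ} (hP : ContDiff ℝ (⊤ : ℕ∞) P) :
    ContDiff ℝ (⊤ : ℕ∞) (PsiP P) := by
  unfold PsiP
  refine Complex.ofRealCLM.contDiff.comp (((chi_sqrt_smooth ?_).mul
    (chis_contDiff.comp ?_)).mul (hP.comp ?_))
  · fun_prop
  · fun_prop
  · fun_prop

lemma PsiP_supp {P : ℝ × ℝ → ℝ} {q : (Fin 1 → ℝ) × (ℝ × ℝ)} (h : PsiP P q ≠ 0) :
    ‖q.2‖ ≤ 4 := by
  unfold PsiP at h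
  rw [Ne, Complex.ofReal_eq_zero, mul_eq_zero, mul_eq_zero, not_or, not_or] at h
  obtain ⟨⟨h1, h2⟩, h3⟩ := h
  obtain ⟨h4, h5⟩ := chi_supp h1
  obtain ⟨h6, h7⟩ := chis_supp h2
  have h8 : 0 ≤ (q.1 0 * q.2.1) ^ 2 + q.2.2 ^ 2 := by positivity
  have h9 := Real.sq_sqrt h8
  have h10 : (q.1 0 * q.2.1) ^ 2 + q.2.2 ^ 2 ≤ 4 := by
    rw [← h9]
    nlinarith
  rw [Prod.norm_def, max_le_iff, Real.norm_eq_abs, Real.norm_eq_abs]
  constructor
  · rw [abs_of_pos (by linarith)]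
    linarith
  · exact abs_le_of_sq_le_sq (by nlinarith [sq_nonneg (q.1 0 * q.2.1)]) (by norm_num)

lemma Fi_bP {α : ℝ} (hα : 0 < α) {P : ℝ × ℝ → ℝ} (hP : ContDiff ℝ (⊤ : ℕ∞) P) (x : ℝ × ℝ) :
    Fi (bP α P) x = (α : ℂ) * Fi (fun ζ => PsiP P (![α], ζ)) (α * x.1, 1 * x.2) := by
  have h1 := integral_diag α 1 hα one_pos
    (fun ξ : ℝ × ℝ => e (x.1 * ξ.1 + x.2 * ξ.2) * bP α P ξ)
    ((continuous_e.comp (by fun_prop)).mul (bP_TC hα hP).1.continuous)
  unfold Fi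
  have h2 : ∫ ζ : ℝ × ℝ, e ((α * x.1, 1 * x.2).1 * ζ.1 + (α * x.1, 1 * x.2).2 * ζ.2) *
      PsiP P (![α], ζ) = ∫ ξ : ℝ × ℝ, e (x.1 * (α * ξ.1) + x.2 * (1 * ξ.2)) *
        bP α P (α * ξ.1, 1 * ξ.2) := by
    congr 1
    funext ζ
    unfold bP PsiP
    simp only [Matrix.cons_val_zero, one_mul]
    rw [mul_div_cancel_left₀ _ hα.ne']
    congr 2
    ring
  rw [h2, h1, ← mul_assoc, mul_one, Complex.ofReal_inv, mul_inv_cancel₀
    (Complex.ofReal_ne_zero.2 hα.ne'), one_mul]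

/-- kernels of the symbols -/
lemma Fi_bP_bound (kb : T_KB) {P : ℝ × ℝ → ℝ} (hP : ContDiff ℝ (⊤ : ℕ∞) P) (N : ℕ) :
    ∃ C : ℝ≥0, ∀ α R : ℝ, 0 < α → α ≤ 4 → 0 ≤ R → (α * R) ^ N ≠ 0 →
      ∫⁻ x in {x : ℝ × ℝ | R ≤ |x.1|}, ‖Fi (bP α P) x‖ₑ ≤
        C * ENNReal.ofReal (1 / (α * R) ^ N) := by
  obtain ⟨C0, hC0⟩ := kb 1 (Icc ![0] ![4]) univ (PsiP P) 4 isCompact_Icc isOpen_univ
    (subset_univ _) (PsiP_contDiff hP).contDiffOn (by
      intro p _ ζ hζ
      by_contra hne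
      have := PsiP_supp hne
      simp only at this
      linarith) (N + 4)
  set Wt : ℝ≥0∞ := ∫⁻ z : ℝ × ℝ, ENNReal.ofReal ((1 + ‖z‖) ^ (-(4 : ℝ))) with hWt
  have hWtt : Wt < ⊤ := weight_lintegral
  refine ⟨(ENNReal.ofReal (max C0 0) * Wt).toNNReal, ?_⟩
  intro α R hα hα4 hR hne
  rw [ENNReal.coe_toNNReal (ENNReal.mul_ne_top ENNReal.ofReal_ne_top hWtt.ne)]
  have hp : (![α] : Fin 1 → ℝ) ∈ Icc (![0] : Fin 1 → ℝ) ![4] := by
    constructor
    · intro i
      fin_cases i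
      exact hα.le
    · intro i
      fin_cases i
      exact hα4
  set G : ℝ × ℝ → ℂ := Fi (fun ζ => PsiP P (![α], ζ)) with hG
  have hTC : TC (fun ζ => PsiP P (![α], ζ)) := by
    constructor
    · exact (PsiP_contDiff hP).comp (contDiff_const.prodMk contDiff_id)
    · refine HasCompactSupport.of_support_subset_isCompact
        (isCompact_closedBall (0 : ℝ × ℝ) 4) fun ζ hζ => ?_
      rw [mem_closedBall_zero_iff]
      exact PsiP_supp hζ
  have hGc : Continuous G := continuous_Fi hTC.integrable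
  set A := {x : ℝ × ℝ | R ≤ |x.1|} with hA
  set B := {y : ℝ × ℝ | α * R ≤ |y.1|} with hB
  have hAm : MeasurableSet A := meas_ge _
  have hBm : MeasurableSet B := meas_ge _
  have hFm : Measurable (B.indicator fun y => ‖G y‖ₑ) := hGc.measurable.enorm.indicator hBm
  have h1 : ∫⁻ x in A, ‖Fi (bP α P) x‖ₑ = ∫⁻ y in B, ‖G y‖ₑ := by
    rw [← lintegral_indicator hAm, ← lintegral_indicator hBm,
      ← lintegral_diag α 1 hα one_pos _ hFm]
    refine lintegral_congr fun x => ?_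
    by_cases hx : x ∈ A
    · have hx' : (α * x.1, 1 * x.2) ∈ B := by
        show α * R ≤ |α * x.1|
        rw [abs_mul, abs_of_pos hα]
        exact mul_le_mul_of_nonneg_left hx hα.le
      rw [indicator_of_mem hx, indicator_of_mem hx', Fi_bP hα hP, enorm_mul, mul_one]
      congr 1
      rw [← ofReal_norm, Complex.norm_real, Real.norm_eq_abs, abs_of_pos hα]
    · have hx' : (α * x.1, 1 * x.2) ∉ B := by
        intro h
        apply hx
        have h' : α * R ≤ |α * x.1| := h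
        rw [abs_mul, abs_of_pos hα] at h'
        exact le_of_mul_le_mul_left h' hα
      rw [indicator_of_notMem hx, indicator_of_notMem hx', mul_zero]
  rw [h1]
  have hpos : 0 < (α * R) ^ N := lt_of_le_of_ne (by positivity) (Ne.symm hne)
  calc ∫⁻ y in B, ‖G y‖ₑ
      ≤ ∫⁻ y in B, ENNReal.ofReal (max C0 0) * ENNReal.ofReal (1 / (α * R) ^ N) *
          ENNReal.ofReal ((1 + ‖y‖) ^ (-(4 : ℝ))) := by
        refine setLIntegral_mono' hBm fun y hy => ?_
        rw [← ofReal_norm, ← ENNReal.ofReal_mul (le_max_right _ _),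
          ← ENNReal.ofReal_mul (by positivity)]
        apply ENNReal.ofReal_le_ofReal
        have h2 := hC0 _ hp y
        set Q := (1 + |y.1|) * (1 + |y.2|) with hQ
        have hQ0 : 0 < Q := by positivity
        have hQ1 : 1 + ‖y‖ ≤ Q := P_ge y
        have hQ2 : α * R ≤ Q := by
          have h3 : α * R ≤ |y.1| := hy
          have h4 : |y.1| ≤ Q := by
            rw [hQ]
            nlinarith [abs_nonneg y.1, abs_nonneg y.2]
          linarith
        have h5 : (1 + ‖y‖) ^ (-(4 : ℝ)) = ((1 + ‖y‖) ^ 4)⁻¹ := by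
          rw [Real.rpow_neg (by positivity)]
          congr 1
          rw [show (4 : ℝ) = ((4 : ℕ) : ℝ) by norm_num, Real.rpow_natCast]
        rw [h5]
        have h6 : ‖G y‖ ≤ max C0 0 / Q ^ (N + 4) := by
          rw [le_div_iff₀ (by positivity)]
          exact h2.trans (le_max_left _ _)
        refine h6.trans ?_
        rw [div_eq_mul_inv, mul_assoc]
        refine mul_le_mul_of_nonneg_left ?_ (le_max_right _ _)
        rw [pow_add, mul_inv, one_div]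
        refine mul_le_mul ?_ ?_ (by positivity) (by positivity)
        · exact inv_anti₀ hpos (pow_le_pow_left₀ (by positivity) hQ2 N)
        · exact inv_anti₀ (by positivity) (pow_le_pow_left₀ (by positivity) hQ1 4)
    _ ≤ ∫⁻ y, ENNReal.ofReal (max C0 0) * ENNReal.ofReal (1 / (α * R) ^ N) *
          ENNReal.ofReal ((1 + ‖y‖) ^ (-(4 : ℝ))) := setLIntegral_le_lintegral _ _
    _ = _ := by
        rw [lintegral_const_mul' _ _ (ENNReal.mul_ne_top ENNReal.ofReal_ne_top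
          ENNReal.ofReal_ne_top)]
        ring

lemma Fi_bP_L1 (kb : T_KB) {P : ℝ × ℝ → ℝ} (hP : ContDiff ℝ (⊤ : ℕ∞) P) :
    ∃ C : ℝ≥0, ∀ α : ℝ, 0 < α → α ≤ 4 → ∫⁻ x, ‖Fi (bP α P) x‖ₑ ≤ C := by
  obtain ⟨C, hC⟩ := Fi_bP_bound kb hP 0
  refine ⟨C, fun α hα hα4 => ?_⟩
  have h := hC α 0 hα hα4 le_rfl (by simp)
  have h2 : {x : ℝ × ℝ | (0 : ℝ) ≤ |x.1|} = univ := by
    ext x
    simp
  rw [h2, Measure.restrict_univ] at h
  simpa using h

end Pool.Agent.H90.LS
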