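import Pool.Agent.H90.LS.KL1b

/-!
Module KL1, part 3: the estimate for one sector.
-/

set_option autoImplicit false

open MeasureTheory Set
open scoped ENNReal NNReal

namespace Pool.Agent.H90.LS

open Pool.Agent.H83.LS

/-- the plank kernel in the original coordinates -/
noncomputable def kj (θ a T : ℝ) (j : ℤ) (v : ℝ × ℝ) : ℝ≥0∞ :=
  ENNReal.ofReal a * ‖Kj a (a ^ 2 * T) j (Ym θ a T v)‖ₑ

/-- the region of the plank kernel which matters for tails -/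
def Bset (θ a T ρ : ℝ) : Set (ℝ × ℝ) :=
  {z | 3 * ρ / 4 ≤ |(z.1 - T) * Real.cos θ - (z.2 / a) * Real.sin θ|}

lemma Bset_meas (θ a T ρ : ℝ) : MeasurableSet (Bset θ a T ρ) :=
  measurableSet_le measurable_const (by fun_prop)

section

variable (cut : T_CUT) (tcu : T_TCU)
include cut tcu

lemma kj_meas {θ a T : ℝ} (ha : 0 < a) (ha1 : a ≤ 1) (hT : 0 ≤ T) (j : ℤ) :
    Measurable (kj θ a T j) := by
  have h := Kj_cont cut tcu (a := a) (s := a ^ 2 * T) ⟨ha.le, ha1⟩ (by positivity) j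
  exact ((h.comp (continuous_Ym θ a T)).measurable.enorm).const_mul _

lemma kj_int {θ a T : ℝ} (ha : 0 < a) (ha1 : a ≤ 1) (hT : 0 ≤ T) (j : ℤ) :
    ∫⁻ v, kj θ a T j v = ∫⁻ y, ‖Kj a (a ^ 2 * T) j y‖ₑ := by
  have h := Kj_cont cut tcu (a := a) (s := a ^ 2 * T) ⟨ha.le, ha1⟩ (by positivity) j
  exact lintegral_Ym' θ a T ha (fun y => ‖Kj a (a ^ 2 * T) j y‖ₑ) h.measurable.enorm

lemma kj_tail {θ a T : ℝ} (ha : 0 < a) (ha1 : a ≤ 1) (hT : 0 ≤ T) (j : ℤ) (ρ : ℝ) :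
    ∫⁻ v in {v : ℝ × ℝ | 3 * ρ / 4 ≤ |v.1|}, kj θ a T j v =
      ∫⁻ y in Bset θ a T ρ, ‖Kj a (a ^ 2 * T) j y‖ₑ := by
  have h := Kj_cont cut tcu (a := a) (s := a ^ 2 * T) ⟨ha.le, ha1⟩ (by positivity) j
  have hm : Measurable ((Bset θ a T ρ).indicator fun y => ‖Kj a (a ^ 2 * T) j y‖ₑ) :=
    h.measurable.enorm.indicator (Bset_meas θ a T ρ)
  rw [← lintegral_indicator (meas_ge _), ← lintegral_indicator (Bset_meas θ a T ρ),
    ← lintegral_Ym' θ a T ha _ hm]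
  refine lintegral_congr fun v => ?_
  have hv := fst_Ym θ a T ha v
  by_cases hx : v ∈ {v : ℝ × ℝ | 3 * ρ / 4 ≤ |v.1|}
  · have hx' : Ym θ a T v ∈ Bset θ a T ρ := by
      show 3 * ρ / 4 ≤ |((Ym θ a T v).1 - T) * Real.cos θ - ((Ym θ a T v).2 / a) * Real.sin θ|
      rw [← hv]
      exact hx
    rw [indicator_of_mem hx, indicator_of_mem hx']
    rfl
  · have hx' : Ym θ a T v ∉ Bset θ a T ρ := by
      intro h'
      apply hx
      have h'' : 3 * ρ / 4 ≤ |((Ym θ a T v).1 - T) * Real.cos θ -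
        ((Ym θ a T v).2 / a) * Real.sin θ| := h'
      rw [← hv] at h''
      exact h''
    rw [indicator_of_notMem hx, indicator_of_notMem hx', mul_zero]

end

/-- the number of planks is at most `14 √λ` -/
lemma card_le {a T lam : ℝ} (ha : 0 < a) (ha1 : a ≤ 1) (hT : 0 ≤ T) (hlam : 1 ≤ lam)
    (hTl : T ≤ 2 * lam) :
    ((Finset.Icc (-(Jn (a ^ 2 * T))) (Jn (a ^ 2 * T))).card : ℝ≥0∞) ≤
      ENNReal.ofReal (14 * Real.sqrt lam) := by
  refine (card_planks (by positivity)).trans (ENNReal.ofReal_le_ofReal ?_)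
  have h1 : a ^ 2 * T ≤ 2 * lam := by
    have : a ^ 2 ≤ 1 := by nlinarith
    nlinarith
  have h2 : Real.sqrt (1 + a ^ 2 * T) ≤ 2 * Real.sqrt lam := by
    rw [show 2 * Real.sqrt lam = Real.sqrt (4 * lam) by
      rw [Real.sqrt_mul (by norm_num), show (4 : ℝ) = 2 ^ 2 by norm_num,
        Real.sqrt_sq (by norm_num)]]
    exact Real.sqrt_le_sqrt (by linarith)
  linarith

lemma slope_mem {s : ℝ} (hs : 0 ≤ s) {j : ℤ} (hj : j ∈ Finset.Icc (-(Jn s)) (Jn s)) :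
    (j : ℝ) * nu s ∈ Icc (-4 : ℝ) 4 := by
  have := slope_le hs hj
  rw [abs_le] at this
  exact ⟨by linarith [this.1], by linarith [this.2]⟩

/-- one sector: the `L¹` norm -/
lemma sector_L1 (lor' : T_LOR) (conv : T_CONV) (cut : T_CUT) (tcu : T_TCU) (kb : T_KB)
    (sec1 : T_SEC1) {P : ℝ × ℝ → ℝ} (hP : ContDiff ℝ (⊤ : ℕ∞) P) :
    ∃ C : ℝ≥0, ∀ α θ a T lam : ℝ, 0 < α → α ≤ 4 → 0 < a → a ≤ 1 → 0 ≤ T → 1 ≤ lam →
      T ≤ 2 * lam → TS (tau θ a) (bP α P) →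
      ∫⁻ X, ‖W T (bP α P) X‖ₑ ≤ C * ENNReal.ofReal (Real.sqrt lam) := by
  obtain ⟨C1, hC1⟩ := sec1.1
  obtain ⟨C2, hC2⟩ := Fi_bP_L1 kb hP
  refine ⟨14 * C1 * C2, ?_⟩
  intro α θ a T lam hα hα4 ha ha1 hT hlam hTl hb
  set s := a ^ 2 * T with hs
  have hs0 : 0 ≤ s := by positivity
  set f : ℝ × ℝ → ℝ≥0∞ := fun x => ‖Fi (bP α P) x‖ₑ with hf
  have hfm : Measurable f := (continuous_Fi hb.1.integrable).measurable.enorm
  calc ∫⁻ X, ‖W T (bP α P) X‖ₑ
      ≤ ∫⁻ X, ∑ j ∈ Finset.Icc (-(Jn s)) (Jn s), ∫⁻ x, kj θ a T j (X - x) * f x :=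
        lintegral_mono fun X => W_le lor' conv cut tcu ha ha1 hT hb X
    _ = ∑ j ∈ Finset.Icc (-(Jn s)) (Jn s), ∫⁻ X, ∫⁻ x, kj θ a T j (X - x) * f x := by
        rw [lintegral_finsetSum]
        intro j _
        exact Measurable.lintegral_prod_right' (f := fun q : (ℝ × ℝ) × (ℝ × ℝ) =>
          kj θ a T j (q.1 - q.2) * f q.2)
          (((kj_meas cut tcu ha ha1 hT j).comp (measurable_fst.sub measurable_snd)).mul
            (hfm.comp measurable_snd))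
    _ = ∑ j ∈ Finset.Icc (-(Jn s)) (Jn s), (∫⁻ y, ‖Kj a s j y‖ₑ) * ∫⁻ x, f x := by
        refine Finset.sum_congr rfl fun j _ => ?_
        rw [lintegral_conv _ _ (kj_meas cut tcu ha ha1 hT j) hfm, kj_int cut tcu ha ha1 hT j]
    _ ≤ ∑ j ∈ Finset.Icc (-(Jn s)) (Jn s), (C1 : ℝ≥0∞) * C2 := by
        refine Finset.sum_le_sum fun j hj => ?_
        refine mul_le_mul' ?_ (hC2 α hα hα4)
        exact hC1 a ⟨ha.le, ha1⟩ (nu s) ⟨nu_pos hs0, nu_le_one hs0⟩ _ (slope_mem hs0 hj) s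
          (nu_sq hs0)
    _ ≤ ENNReal.ofReal (14 * Real.sqrt lam) * (C1 * C2) := by
        rw [Finset.sum_const, nsmul_eq_mul]
        exact mul_le_mul_left (card_le ha ha1 hT hlam hTl) _
    _ = _ := by
        rw [ENNReal.ofReal_mul (by norm_num)]
        push_cast
        rw [show ENNReal.ofReal 14 = 14 by simp]
        ring

/-- tails of the plank kernels -/
lemma Kj_tail (sec1 : T_SEC1) (N : ℕ) :
    ∃ C : ℝ≥0, ∀ (a s r : ℝ) (j : ℤ) (B : Set (ℝ × ℝ)), 0 < a → a ≤ 1 → 0 ≤ s → 0 < r →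
      j ∈ Finset.Icc (-(Jn s)) (Jn s) → MeasurableSet B →
      (∀ z ∈ B, r ≤ ‖z + s • gr a ((j : ℝ) * nu s)‖) →
      ∫⁻ y in B, ‖Kj a s j y‖ₑ ≤ C * ENNReal.ofReal (1 / (nu s * r) ^ N) := by
  obtain ⟨C1, hC1⟩ := sec1.1
  obtain ⟨C2, hC2⟩ := sec1.2 N
  refine ⟨C1 + (max C2 0).toNNReal, ?_⟩
  intro a s r j B ha ha1 hs hr hj hBm hB
  have hν := nu_pos hs
  have hsl := slope_mem hs hj
  rcases le_or_gt (1 / nu s) r with h | h
  · have h1 := hC2 a ⟨ha.le, ha1⟩ (nu s) ⟨hν, nu_le_one hs⟩ _ hsl s r (nu_sq hs) h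
    set c : ℝ × ℝ := -(s • gr a ((j : ℝ) * nu s)) with hc
    calc ∫⁻ y in B, ‖Kj a s j y‖ₑ
        ≤ ∫⁻ y in {z : ℝ × ℝ | r ≤ ‖z - c‖}, ‖Kj a s j y‖ₑ := by
          refine lintegral_mono_set fun z hz => ?_
          show r ≤ ‖z - c‖
          rw [hc, sub_neg_eq_add]
          exact hB z hz
      _ ≤ tailI r c (fun ζ => e (s * ph a ζ) * sc (nu s) ((j : ℝ) * nu s) ζ) := by
          unfold tailI
          refine lintegral_mono fun z => ?_
          have h2 : (1 : ℝ≥0∞) ≤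
              ENNReal.ofReal (((1 + |z.1 - c.1| / r) * (1 + |z.2 - c.2| / r)) ^ 4) := by
            rw [← ENNReal.ofReal_one]
            apply ENNReal.ofReal_le_ofReal
            apply one_le_pow₀
            have h3 : 1 ≤ 1 + |z.1 - c.1| / r := le_add_of_nonneg_right (by positivity)
            have h4 : 1 ≤ 1 + |z.2 - c.2| / r := le_add_of_nonneg_right (by positivity)
            nlinarith
          calc ‖Kj a s j z‖ₑ = ‖Kj a s j z‖ₑ * 1 := (mul_one _).symm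
            _ ≤ _ := mul_le_mul_right h2 _
      _ ≤ ENNReal.ofReal (C2 / (nu s * r) ^ N) := h1
      _ ≤ ENNReal.ofReal (max C2 0 * (1 / (nu s * r) ^ N)) := by
          apply ENNReal.ofReal_le_ofReal
          rw [mul_one_div]
          exact div_le_div_of_nonneg_right (le_max_left _ _) (by positivity)
      _ ≤ _ := by
          rw [ENNReal.ofReal_mul (le_max_right _ _)]
          refine mul_le_mul_left ?_ _
          push_cast
          exact le_add_self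
  · have h1 := hC1 a ⟨ha.le, ha1⟩ (nu s) ⟨hν, nu_le_one hs⟩ _ hsl s (nu_sq hs)
    have h2 : nu s * r ≤ 1 := by
      rw [lt_div_iff₀ hν] at h
      linarith
    calc ∫⁻ y in B, ‖Kj a s j y‖ₑ ≤ ∫⁻ y, ‖Kj a s j y‖ₑ := setLIntegral_le_lintegral _ _
      _ ≤ C1 := h1
      _ = C1 * 1 := (mul_one _).symm
      _ ≤ _ := by
          refine mul_le_mul' ?_ ?_
          · push_cast
            exact le_self_add
          · rw [← ENNReal.ofReal_one]
            apply ENNReal.ofReal_le_ofReal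
            rw [le_div_iff₀ (by positivity), one_mul]
            exact pow_le_one₀ (by positivity) h2

/-- one sector: the tail -/
lemma sector_tail (lor' : T_LOR) (conv : T_CONV) (cut : T_CUT) (tcu : T_TCU) (kb : T_KB)
    (sec1 : T_SEC1) {P : ℝ × ℝ → ℝ} (hP : ContDiff ℝ (⊤ : ℕ∞) P) (N : ℕ) :
    ∃ C : ℝ≥0, ∀ α θ a T lam D m : ℝ, 0 < α → α ≤ 4 → 0 < a → a ≤ 1 → 0 ≤ T → 1 ≤ lam →
      T ≤ 2 * lam → TS (tau θ a) (bP α P) → 0 < D → 0 < m → m ≤ α * lam →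
      m ^ 2 * (1 + a ^ 2 * T) ≤ 4 * a ^ 2 * lam ^ 2 →
      (∀ (σ : ℝ) (z : ℝ × ℝ), |σ| ≤ 3 → z ∈ Bset θ a T (lam * D) →
        a * (lam * D) / 8 ≤ ‖z + (a ^ 2 * T) • gr a σ‖) →
      ∫⁻ X in {x : ℝ × ℝ | lam * D ≤ |x.1|}, ‖W T (bP α P) X‖ₑ ≤
        C * ENNReal.ofReal (Real.sqrt lam / (m * D) ^ N) := by
  obtain ⟨C1, hC1⟩ := sec1.1
  obtain ⟨C2, hC2⟩ := Fi_bP_L1 kb hP
  obtain ⟨C3, hC3⟩ := Fi_bP_bound kb hP N
  obtain ⟨C4, hC4⟩ := Kj_tail sec1 N
  refine ⟨14 * (C1 * C3 * 4 ^ N + C4 * C2 * 16 ^ N), ?_⟩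
  intro α θ a T lam D m hα hα4 ha ha1 hT hlam hTl hb hD hm hmα hmT hgeo
  set s := a ^ 2 * T with hs
  have hs0 : 0 ≤ s := by positivity
  have hlam0 : 0 < lam := by linarith
  set f : ℝ × ℝ → ℝ≥0∞ := fun x => ‖Fi (bP α P) x‖ₑ with hf
  have hfm : Measurable f := (continuous_Fi hb.1.integrable).measurable.enorm
  set ρ := lam * D with hρ
  have hρ0 : 0 < ρ := by positivity
  have hν := nu_pos hs0
  -- the two decay factors
  have hd1 : ENNReal.ofReal (1 / (α * (ρ / 4)) ^ N) ≤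
      4 ^ N * ENNReal.ofReal (1 / (m * D) ^ N) := by
    rw [show (4 : ℝ≥0∞) ^ N = ENNReal.ofReal (4 ^ N) by
      rw [ENNReal.ofReal_pow (by norm_num)]; simp, ← ENNReal.ofReal_mul (by positivity)]
    apply ENNReal.ofReal_le_ofReal
    rw [mul_one_div, div_le_div_iff₀ (by positivity) (by positivity), one_mul, ← mul_pow]
    apply pow_le_pow_left₀ (by positivity)
    have : m * D ≤ α * lam * D := mul_le_mul_of_nonneg_right hmα hD.le
    rw [hρ]
    linarith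
  have hd2 : ENNReal.ofReal (1 / (nu s * (a * ρ / 8)) ^ N) ≤
      16 ^ N * ENNReal.ofReal (1 / (m * D) ^ N) := by
    rw [show (16 : ℝ≥0∞) ^ N = ENNReal.ofReal (16 ^ N) by
      rw [ENNReal.ofReal_pow (by norm_num)]; simp, ← ENNReal.ofReal_mul (by positivity)]
    apply ENNReal.ofReal_le_ofReal
    rw [mul_one_div, div_le_div_iff₀ (by positivity) (by positivity), one_mul, ← mul_pow]
    apply pow_le_pow_left₀ (by positivity)
    -- `m √(1+s) ≤ 2 a λ`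
    have h1 : m * Real.sqrt (1 + s) ≤ 2 * a * lam := by
      apply abs_le_of_sq_le_sq' _ (by positivity) |>.2
      rw [mul_pow, Real.sq_sqrt (by linarith)]
      linarith
    have h2 : 0 < Real.sqrt (1 + s) := Real.sqrt_pos.2 (by linarith)
    unfold nu
    rw [hρ, show 16 * (1 / Real.sqrt (1 + s) * (a * (lam * D) / 8)) =
      (2 * a * lam) * D / Real.sqrt (1 + s) by ring, le_div_iff₀ h2]
    calc m * D * Real.sqrt (1 + s) = (m * Real.sqrt (1 + s)) * D := by ring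
      _ ≤ _ := mul_le_mul_of_nonneg_right h1 hD.le
  calc ∫⁻ X in {x : ℝ × ℝ | ρ ≤ |x.1|}, ‖W T (bP α P) X‖ₑ
      ≤ ∫⁻ X in {x : ℝ × ℝ | ρ ≤ |x.1|}, ∑ j ∈ Finset.Icc (-(Jn s)) (Jn s),
          ∫⁻ x, kj θ a T j (X - x) * f x :=
        lintegral_mono fun X => W_le lor' conv cut tcu ha ha1 hT hb X
    _ = ∑ j ∈ Finset.Icc (-(Jn s)) (Jn s), ∫⁻ X in {x : ℝ × ℝ | ρ ≤ |x.1|},
          ∫⁻ x, kj θ a T j (X - x) * f x := by
        rw [lintegral_finsetSum]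
        intro j _
        exact Measurable.lintegral_prod_right' (f := fun q : (ℝ × ℝ) × (ℝ × ℝ) =>
          kj θ a T j (q.1 - q.2) * f q.2)
          (((kj_meas cut tcu ha ha1 hT j).comp (measurable_fst.sub measurable_snd)).mul
            (hfm.comp measurable_snd))
    _ ≤ ∑ j ∈ Finset.Icc (-(Jn s)) (Jn s),
          (C1 * C3 * 4 ^ N + C4 * C2 * 16 ^ N : ℝ≥0∞) * ENNReal.ofReal (1 / (m * D) ^ N) := by
        refine Finset.sum_le_sum fun j hj => ?_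
        refine (conv_tail _ _ (kj_meas cut tcu ha ha1 hT j) hfm ρ).trans ?_
        rw [kj_int cut tcu ha ha1 hT j, kj_tail cut tcu ha ha1 hT j ρ, add_mul]
        refine add_le_add ?_ ?_
        · calc (∫⁻ y, ‖Kj a (a ^ 2 * T) j y‖ₑ) * ∫⁻ x in {x : ℝ × ℝ | ρ / 4 ≤ |x.1|}, f x
              ≤ C1 * (C3 * ENNReal.ofReal (1 / (α * (ρ / 4)) ^ N)) := by
                refine mul_le_mul' ?_ ?_
                · exact hC1 a ⟨ha.le, ha1⟩ (nu s) ⟨hν, nu_le_one hs0⟩ _ (slope_mem hs0 hj) s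
                    (nu_sq hs0)
                · exact hC3 α (ρ / 4) hα hα4 (by positivity) (by positivity)
            _ ≤ C1 * (C3 * (4 ^ N * ENNReal.ofReal (1 / (m * D) ^ N))) := by gcongr
            _ = _ := by ring
        · calc (∫⁻ y in Bset θ a T ρ, ‖Kj a (a ^ 2 * T) j y‖ₑ) * ∫⁻ x, f x
              ≤ (C4 * ENNReal.ofReal (1 / (nu s * (a * ρ / 8)) ^ N)) * C2 := by
                refine mul_le_mul' ?_ (hC2 α hα hα4)
                exact hC4 a s (a * ρ / 8) j _ ha ha1 hs0 (by positivity) hj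
                  (Bset_meas θ a T ρ) fun z hz => hgeo _ z (slope_le hs0 hj) hz
            _ ≤ (C4 * (16 ^ N * ENNReal.ofReal (1 / (m * D) ^ N))) * C2 := by gcongr
            _ = _ := by ring
    _ ≤ ENNReal.ofReal (14 * Real.sqrt lam) *
          ((C1 * C3 * 4 ^ N + C4 * C2 * 16 ^ N : ℝ≥0∞) * ENNReal.ofReal (1 / (m * D) ^ N)) := by
        rw [Finset.sum_const, nsmul_eq_mul]
        exact mul_le_mul_left (card_le ha ha1 hT hlam hTl) _
    _ = _ := by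
        rw [show Real.sqrt lam / (m * D) ^ N = Real.sqrt lam * (1 / (m * D) ^ N) by ring,
          ENNReal.ofReal_mul (by norm_num), ENNReal.ofReal_mul (Real.sqrt_nonneg _)]
        push_cast
        rw [show ENNReal.ofReal 14 = 14 by simp]
        ring

end Pool.Agent.H90.LS
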